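import Pool.Agent.Lib.MP_2d002d_gt.H38.DensC

/-!
# Density lemma (M1) (helper38)
-/

set_option autoImplicit false

open MeasureTheory Set Filter Topology
open scoped ContDiff InnerProductSpace

namespace Pool.Agent.Lib.MP_2d002d_gt.H38

variable {n : ℕ}

lemma pd_expPsi {Ψ : (Fin n → ℝ) → ℝ} (hΨ : ContDiff ℝ ∞ Ψ) (x : Fin n → ℝ) (i : Fin n) :
    pd i (fun y => Real.exp (Ψ y / 2)) x = Real.exp (Ψ x / 2) * (pd i Ψ x / 2) := by
  have h : ContDiff ℝ ∞ (fun y => Ψ y / 2) := hΨ.div_const _
  rw [pd_exp (diffAt h x)]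
  congr 1
  rw [pd_congr (g := fun y => (1 / 2 : ℝ) * Ψ y) (fun y => by ring), pd_const_mul (diffAt hΨ x)]
  ring

/-- the weak gradient of `exp (Ψ/2) w` vanishes -/
lemma weak_grad {Ψ w : (Fin n → ℝ) → ℝ} (hΨ : ContDiff ℝ ∞ Ψ) (hw : LocallyIntegrable w)
    (hw2 : Integrable (fun x => w x ^ 2)) (hweak : Weak Ψ w) (i : Fin n)
    {φ : (Fin n → ℝ) → ℝ} (hφ : ContDiff ℝ ∞ φ) (hφc : HasCompactSupport φ) :
    ∫ x, w x * (Real.exp (Ψ x / 2) * pd i φ x) = 0 := by
  have hE : ContDiff ℝ ∞ (fun x => Real.exp (Ψ x / 2)) := (hΨ.div_const _).exp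
  set θ : (Fin n → ℝ) → ℝ := fun x => Real.exp (Ψ x / 2) * pd i φ x with hθdef
  have hθ : Continuous θ := hE.continuous.mul (contDiff_pd hφ i).continuous
  have hθc : HasCompactSupport θ := (hasCompactSupport_pd hφc i).mul_left
  have hlim := integral_mo_tendsto hw hθ hθc
  set B : ℝ := ∫ x, w x ^ 2 with hB
  have hB0 : 0 ≤ B := integral_nonneg fun x => sq_nonneg _
  set Cφ : ℝ := ∫ x, φ x ^ 2 * Real.exp (Ψ x) with hCφ
  have hC0 : 0 ≤ Cφ := integral_nonneg fun x => mul_nonneg (sq_nonneg _) (Real.exp_pos _).le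
  have hq : Continuous (qf Ψ) := (contDiff_qf hΨ).continuous
  have hmain : ∀ lam η : ℝ, 0 < lam → 0 < η →
      |∫ x, w x * θ x| ≤ 3 * lam * η * B + Cφ / (2 * lam) := by
    intro lam η hlam hη
    obtain ⟨χ, hχ, hχc, hχ1, hχb, hχg⟩ := exists_cutoff hφc.isCompact hη
    -- oscillation of q near the support of χ
    have hosc : ∀ᶠ k : ℕ in atTop, ∀ x ∈ tsupport χ, ∀ y, bn n k (x - y) ≠ 0 →
        |qf Ψ y - qf Ψ x| ≤ η := by
      have h1 := IsCompact.uniformContinuousAt_of_continuousAt (r := {p : ℝ × ℝ | dist p.1 p.2 < η})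
        hχc.isCompact (qf Ψ) (fun a _ => hq.continuousAt) (Metric.dist_mem_uniformity hη)
      rw [Metric.mem_uniformity_dist] at h1
      obtain ⟨ε, hε, h2⟩ := h1
      have h3 := (tendsto_rOut (n := n)).eventually (gt_mem_nhds hε)
      filter_upwards [h3] with k hk x hx y hy
      have h4 : dist x y < ε := by
        rw [dist_eq_norm]
        exact (bn_zero hy).trans hk
      have h5 := h2 h4 hx
      have h6 : dist (qf Ψ x) (qf Ψ y) < η := h5
      rw [dist_comm, Real.dist_eq] at h6
      exact h6.le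
    apply le_of_tendsto hlim.abs
    filter_upwards [hosc] with k hk
    set v := mo (bn n k) w with hv
    have hvC : ContDiff ℝ ∞ v := contDiff_mo (bn_contDiff k) (bn_supp k) hw
    have hvle : ∀ x, |v x| ≤ mo (bn n k) (fun y => |w y|) x := abs_mo_le (bn_nonneg k)
    obtain ⟨hy1, hy2⟩ := young (bn_contDiff k) (bn_supp k) (bn_nonneg k) (bn_integral k) hw hw2
    have hm0 : ∀ x, 0 ≤ mo (bn n k) (fun y => |w y|) x := fun x => (abs_nonneg _).trans (hvle x)
    -- first term
    have hκ : Continuous fun x => lap v x - qf Ψ x * v x :=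
      (contDiff_lap hvC).continuous.sub (hq.mul hvC.continuous)
    have hc2 : HasCompactSupport (fun x => χ x ^ 2) := by
      have : (fun x => χ x ^ 2) = χ * χ := by ext x; simp [sq]
      rw [this]; exact hχc.mul_right
    have b1 : ∫ x, χ x ^ 2 * (|v x| * |lap v x - qf Ψ x * v x|) ≤ η * B := by
      calc ∫ x, χ x ^ 2 * (|v x| * |lap v x - qf Ψ x * v x|)
          ≤ ∫ x, η * mo (bn n k) (fun y => |w y|) x ^ 2 := by
            apply integral_mono_of_nonneg
            · filter_upwards with x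
              exact mul_nonneg (sq_nonneg _) (mul_nonneg (abs_nonneg _) (abs_nonneg _))
            · exact hy1.const_mul _
            · filter_upwards with x
              by_cases hx : x ∈ tsupport χ
              · have h1 := comm_le hΨ hw hweak (bn_contDiff k) (bn_supp k) (bn_nonneg k)
                  (x := x) (η := η) (hk x hx)
                have h2 : χ x ^ 2 ≤ 1 := by
                  have := hχb x
                  nlinarith [this.1, this.2]
                have h3 : |v x| * |lap v x - qf Ψ x * v x| ≤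
                    mo (bn n k) (fun y => |w y|) x * (η * mo (bn n k) (fun y => |w y|) x) :=
                  mul_le_mul (hvle x) h1 (abs_nonneg _) (hm0 x)
                calc χ x ^ 2 * (|v x| * |lap v x - qf Ψ x * v x|)
                    ≤ 1 * (mo (bn n k) (fun y => |w y|) x *
                        (η * mo (bn n k) (fun y => |w y|) x)) :=
                      mul_le_mul h2 h3 (mul_nonneg (abs_nonneg _) (abs_nonneg _)) zero_le_one
                  _ = η * mo (bn n k) (fun y => |w y|) x ^ 2 := by ring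
              · have : χ x = 0 := image_eq_zero_of_notMem_tsupport hx
                rw [this]
                simp only [ne_eq, OfNat.ofNat_ne_zero, not_false_eq_true, zero_pow, zero_mul]
                exact mul_nonneg hη.le (sq_nonneg _)
        _ ≤ η * B := by
            rw [integral_const_mul]
            exact mul_le_mul_of_nonneg_left hy2 hη.le
    have b2 : ∫ x, (∑ i, pd i χ x ^ 2) * v x ^ 2 ≤ η * B := by
      calc ∫ x, (∑ i, pd i χ x ^ 2) * v x ^ 2
          ≤ ∫ x, η * mo (bn n k) (fun y => |w y|) x ^ 2 := by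
            apply integral_mono_of_nonneg
            · filter_upwards with x
              exact mul_nonneg (Finset.sum_nonneg fun i _ => sq_nonneg _) (sq_nonneg _)
            · exact hy1.const_mul _
            · filter_upwards with x
              have h1 : v x ^ 2 ≤ mo (bn n k) (fun y => |w y|) x ^ 2 := by
                rw [← sq_abs]
                exact pow_le_pow_left₀ (abs_nonneg _) (hvle x) 2
              exact mul_le_mul (hχg x) h1 (sq_nonneg _) hη.le
        _ ≤ η * B := by
            rw [integral_const_mul]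
            exact mul_le_mul_of_nonneg_left hy2 hη.le
    have b3 := cacc hΨ hvC hχ hχc
    have b4 : ∫ x, χ x ^ 2 * ∑ j, tg Ψ v j x ^ 2 ≤ 6 * (η * B) := by linarith
    -- test function
    have e1 : ∫ x, v x * θ x = -∫ x, Real.exp (Ψ x / 2) * tg Ψ v i x * φ x := by
      have hEv : ContDiff ℝ ∞ (fun x => Real.exp (Ψ x / 2) * v x) := hE.mul hvC
      have h1 := ibp (contDiff_one hEv) (contDiff_one hφ) (Or.inr hφc) i
      calc ∫ x, v x * θ x = ∫ x, Real.exp (Ψ x / 2) * v x * pd i φ x := by
            apply integral_congr_ae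
            filter_upwards with x
            rw [hθdef]; ring
        _ = -∫ x, pd i (fun x => Real.exp (Ψ x / 2) * v x) x * φ x := h1
        _ = _ := by
            congr 1
            apply integral_congr_ae
            filter_upwards with x
            rw [pd_mul (diffAt hE x) (diffAt hvC x), pd_expPsi hΨ]
            simp only [tg]
            ring
    rw [e1, abs_neg]
    have hgc : Continuous (tg Ψ v i) := (contDiff_tg hΨ hvC i).continuous
    have i1 : Integrable (fun x => χ x ^ 2 * ∑ j, tg Ψ v j x ^ 2) :=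
      int_cs ((hχ.continuous.pow 2).mul (continuous_finsetSum _ fun j _ =>
        ((contDiff_tg hΨ hvC j).continuous).pow 2)) hc2.mul_right
    have i2 : Integrable (fun x => φ x ^ 2 * Real.exp (Ψ x)) := by
      have hcs : HasCompactSupport (fun x => φ x ^ 2 * Real.exp (Ψ x)) := by
        have : (fun x => φ x ^ 2 * Real.exp (Ψ x)) = fun x => φ x * (φ x * Real.exp (Ψ x)) := by
          ext x; ring
        rw [this]
        exact hφc.mul_right
      exact int_cs ((hφ.continuous.pow 2).mul (hΨ.continuous.rexp)) hcs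
    calc |∫ x, Real.exp (Ψ x / 2) * tg Ψ v i x * φ x|
        ≤ ∫ x, |Real.exp (Ψ x / 2) * tg Ψ v i x * φ x| := abs_integral_le_integral_abs
      _ ≤ ∫ x, (lam / 2 * (χ x ^ 2 * ∑ j, tg Ψ v j x ^ 2) +
            1 / (2 * lam) * (φ x ^ 2 * Real.exp (Ψ x))) := by
          apply integral_mono_of_nonneg
          · filter_upwards with x using abs_nonneg _
          · exact (i1.const_mul _).add (i2.const_mul _)
          · filter_upwards with x
            have hs : tg Ψ v i x ^ 2 ≤ ∑ j, tg Ψ v j x ^ 2 :=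
              Finset.single_le_sum (f := fun j => tg Ψ v j x ^ 2) (fun j _ => sq_nonneg _)
                (Finset.mem_univ i)
            by_cases hx : x ∈ tsupport φ
            · rw [hχ1 x hx]
              have hexp : Real.exp (Ψ x) = Real.exp (Ψ x / 2) ^ 2 := by
                rw [← Real.exp_nat_mul]; congr 1; push_cast; ring
              rw [hexp]
              have key : |Real.exp (Ψ x / 2) * tg Ψ v i x * φ x| ≤
                  lam / 2 * tg Ψ v i x ^ 2 +
                    1 / (2 * lam) * (φ x ^ 2 * Real.exp (Ψ x / 2) ^ 2) := by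
                rw [abs_le]
                have hl : 0 < 1 / (2 * lam) := by positivity
                have e : lam / 2 * tg Ψ v i x ^ 2 +
                    1 / (2 * lam) * (φ x ^ 2 * Real.exp (Ψ x / 2) ^ 2) =
                    1 / (2 * lam) * ((lam * tg Ψ v i x) ^ 2 +
                      (φ x * Real.exp (Ψ x / 2)) ^ 2) := by
                  field_simp
                rw [e]
                have e2 : Real.exp (Ψ x / 2) * tg Ψ v i x * φ x =
                    1 / (2 * lam) * (2 * (lam * tg Ψ v i x) * (φ x * Real.exp (Ψ x / 2))) := by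
                  field_simp
                rw [e2]
                constructor
                · rw [← mul_neg]
                  apply mul_le_mul_of_nonneg_left _ hl.le
                  nlinarith [sq_nonneg (lam * tg Ψ v i x + φ x * Real.exp (Ψ x / 2))]
                · apply mul_le_mul_of_nonneg_left _ hl.le
                  nlinarith [sq_nonneg (lam * tg Ψ v i x - φ x * Real.exp (Ψ x / 2))]
              refine key.trans ?_
              have : lam / 2 * tg Ψ v i x ^ 2 ≤ lam / 2 * (1 ^ 2 * ∑ j, tg Ψ v j x ^ 2) := by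
                rw [one_pow, one_mul]
                exact mul_le_mul_of_nonneg_left hs (by linarith)
              linarith
            · have hz : φ x = 0 := image_eq_zero_of_notMem_tsupport hx
              rw [hz]
              simp only [mul_zero, abs_zero, ne_eq, OfNat.ofNat_ne_zero, not_false_eq_true,
                zero_pow, zero_mul, add_zero]
              apply mul_nonneg (by linarith)
              exact mul_nonneg (sq_nonneg _) (Finset.sum_nonneg fun j _ => sq_nonneg _)
      _ = lam / 2 * (∫ x, χ x ^ 2 * ∑ j, tg Ψ v j x ^ 2) + 1 / (2 * lam) * Cφ := by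
          have i1' := i1.const_mul (lam / 2)
          have i2' := i2.const_mul (1 / (2 * lam))
          rw [integral_add i1' i2', integral_const_mul, integral_const_mul]
      _ ≤ lam / 2 * (6 * (η * B)) + 1 / (2 * lam) * Cφ := by
          have := mul_le_mul_of_nonneg_left b4 (show 0 ≤ lam / 2 by linarith)
          linarith
      _ = 3 * lam * η * B + Cφ / (2 * lam) := by ring
  have hfin : ∀ lam : ℝ, 0 < lam → |∫ x, w x * θ x| ≤ Cφ / (2 * lam) := by
    intro lam hlam
    apply le_of_forall_pos_le_add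
    intro ε hε
    have h1 := hmain lam (ε / (3 * lam * (B + 1))) hlam (by positivity)
    refine h1.trans ?_
    have : 3 * lam * (ε / (3 * lam * (B + 1))) * B = ε * (B / (B + 1)) := by
      field_simp
    rw [this]
    have h2 : B / (B + 1) ≤ 1 := by
      rw [div_le_one (by linarith)]; linarith
    nlinarith
  have h0 : |∫ x, w x * θ x| ≤ 0 := by
    apply le_of_forall_pos_le_add
    intro ε hε
    have h1 := hfin ((Cφ + 1) / (2 * ε)) (by positivity)
    refine h1.trans ?_
    rw [zero_add, div_le_iff₀ (by positivity)]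
    have : ε * (2 * ((Cφ + 1) / (2 * ε))) = Cφ + 1 := by field_simp
    rw [this]; linarith
  exact abs_eq_zero.1 (le_antisymm h0 (abs_nonneg _))

/-- the operator `L u = Δ u - ∇Ψ·∇u` -/
noncomputable def Lop (Ψ u : (Fin n → ℝ) → ℝ) (x : Fin n → ℝ) : ℝ :=
  ∑ i, (pd i (pd i u) x - pd i Ψ x * pd i u x)

lemma pd_eq_zero {f : (Fin n → ℝ) → ℝ} {x : Fin n → ℝ} (hx : x ∉ tsupport f) (i : Fin n) :
    pd i f x = 0 := by
  unfold pd
  rw [fderiv_of_notMem_tsupport (𝕜 := ℝ) hx]
  rfl

lemma tsupport_pd_subset (f : (Fin n → ℝ) → ℝ) (i : Fin n) : tsupport (pd i f) ⊆ tsupport f := by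
  apply closure_minimal _ (isClosed_tsupport f)
  intro y hy
  by_contra h
  exact hy (pd_eq_zero h i)

lemma Lop_add {Ψ u v : (Fin n → ℝ) → ℝ} (hu : ContDiff ℝ ∞ u) (hv : ContDiff ℝ ∞ v)
    (x : Fin n → ℝ) : Lop Ψ (fun x => u x + v x) x = Lop Ψ u x + Lop Ψ v x := by
  unfold Lop
  rw [← Finset.sum_add_distrib]
  refine Finset.sum_congr rfl fun i _ => ?_
  have e : pd i (fun x => u x + v x) = fun x => pd i u x + pd i v x := by
    ext y; exact pd_add (diffAt hu y) (diffAt hv y) i
  rw [e, pd_add (diffAt (contDiff_pd hu i) x) (diffAt (contDiff_pd hv i) x)]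
  ring

lemma Lop_smul {Ψ u : (Fin n → ℝ) → ℝ} (hu : ContDiff ℝ ∞ u) (c : ℝ)
    (x : Fin n → ℝ) : Lop Ψ (fun x => c * u x) x = c * Lop Ψ u x := by
  unfold Lop
  rw [Finset.mul_sum]
  refine Finset.sum_congr rfl fun i _ => ?_
  have e : pd i (fun x => c * u x) = fun x => c * pd i u x := by
    ext y; exact pd_const_mul (diffAt hu y) c i
  rw [e, pd_const_mul (diffAt (contDiff_pd hu i) x)]
  ring

lemma Lop_zero {Ψ : (Fin n → ℝ) → ℝ} (x : Fin n → ℝ) : Lop Ψ (fun _ => 0) x = 0 := by
  unfold Lop
  apply Finset.sum_eq_zero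
  intro i _
  have e : pd i (fun _ : Fin n → ℝ => (0 : ℝ)) = fun _ => 0 := by
    ext y; exact pd_const 0 y i
  rw [e, pd_const]
  ring

lemma contDiff_Lop {Ψ u : (Fin n → ℝ) → ℝ} (hΨ : ContDiff ℝ ∞ Ψ) (hu : ContDiff ℝ ∞ u) :
    ContDiff ℝ ∞ (Lop Ψ u) := by
  unfold Lop
  exact ContDiff.sum fun i _ => (contDiff_pd (contDiff_pd hu i) i).sub
    ((contDiff_pd hΨ i).mul (contDiff_pd hu i))

lemma Lop_supp {Ψ u : (Fin n → ℝ) → ℝ} (hu : HasCompactSupport u) :
    HasCompactSupport (Lop Ψ u) := by
  apply HasCompactSupport.intro hu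
  intro x hx
  unfold Lop
  apply Finset.sum_eq_zero
  intro i _
  have h1 : pd i u x = 0 := pd_eq_zero hx i
  have h2 : pd i (pd i u) x = 0 := pd_eq_zero (fun h => hx (tsupport_pd_subset u i h)) i
  rw [h1, h2]; ring

lemma Lop_exp {Ψ φ : (Fin n → ℝ) → ℝ} (hΨ : ContDiff ℝ ∞ Ψ) (hφ : ContDiff ℝ ∞ φ)
    (x : Fin n → ℝ) : Real.exp (-(Ψ x) / 2) * Lop Ψ (fun x => Real.exp (Ψ x / 2) * φ x) x =
      lap φ x - qf Ψ x * φ x := by
  have hE : ContDiff ℝ ∞ (fun x => Real.exp (Ψ x / 2)) := (hΨ.div_const _).exp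
  rw [← sum_pd_tg hΨ hφ x]
  unfold Lop
  rw [Finset.mul_sum]
  refine Finset.sum_congr rfl fun i _ => ?_
  have e : pd i (fun x => Real.exp (Ψ x / 2) * φ x) =
      fun x => Real.exp (Ψ x / 2) * tg Ψ φ i x := by
    ext y
    rw [pd_mul (diffAt hE y) (diffAt hφ y), pd_expPsi hΨ]
    simp only [tg]; ring
  rw [e, pd_mul (diffAt hE x) (diffAt (contDiff_tg hΨ hφ i) x), pd_expPsi hΨ]
  have h1 : Real.exp (-(Ψ x) / 2) * Real.exp (Ψ x / 2) = 1 := by
    rw [← Real.exp_add]; simp; ring_nf
  linear_combination (pd i (tg Ψ φ i) x - pd i Ψ x * tg Ψ φ i x / 2) * h1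

/-- the image of `C_c^∞` under `exp (-Ψ/2) L`, as a subspace of `L²` -/
noncomputable def SS (Ψ : (Fin n → ℝ) → ℝ) : Submodule ℝ (Lp ℝ 2 (volume : Measure (Fin n → ℝ))) where
  carrier := {f | ∃ u : (Fin n → ℝ) → ℝ, ContDiff ℝ ∞ u ∧ HasCompactSupport u ∧
    ∀ᵐ x, f x = Real.exp (-(Ψ x) / 2) * Lop Ψ u x}
  zero_mem' := by
    refine ⟨fun _ => 0, contDiff_const, HasCompactSupport.zero, ?_⟩
    filter_upwards [Lp.coeFn_zero ℝ 2 (volume : Measure (Fin n → ℝ))] with x hx
    rw [hx, Lop_zero]; simp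
  add_mem' := by
    rintro f g ⟨u, hu, huc, hfu⟩ ⟨v, hv, hvc, hgv⟩
    refine ⟨fun x => u x + v x, hu.add hv, huc.add hvc, ?_⟩
    filter_upwards [Lp.coeFn_add f g, hfu, hgv] with x hx h1 h2
    rw [hx, Pi.add_apply, h1, h2, Lop_add hu hv]; ring
  smul_mem' := by
    rintro c f ⟨u, hu, huc, hfu⟩
    refine ⟨fun x => c * u x, contDiff_const.mul hu, huc.mul_left, ?_⟩
    filter_upwards [Lp.coeFn_smul c f, hfu] with x hx h1
    rw [hx, Pi.smul_apply, h1, Lop_smul hu]; simp; ring

theorem dens : Dens := by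
  intro n Ψ h hΨ hint hh hh2 hmean ε hε
  have hEm : Continuous (fun x => Real.exp (-(Ψ x) / 2)) :=
    (hΨ.continuous.neg.div_const _).rexp
  have hexp2 : ∀ x, Real.exp (-(Ψ x) / 2) ^ 2 = Real.exp (-Ψ x) := by
    intro x
    rw [← Real.exp_nat_mul]; congr 1; push_cast; ring
  -- the element of L² of a test function
  have hmem : ∀ u : (Fin n → ℝ) → ℝ, ContDiff ℝ ∞ u → HasCompactSupport u →
      MemLp (fun x => Real.exp (-(Ψ x) / 2) * Lop Ψ u x) 2 volume := by
    intro u hu huc
    exact (hEm.mul (contDiff_Lop hΨ hu).continuous).memLp_of_hasCompactSupport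
      (Lop_supp huc).mul_left
  have hhm : MemLp (fun x => Real.exp (-(Ψ x) / 2) * h x) 2 volume := by
    have hm : AEStronglyMeasurable (fun x => Real.exp (-(Ψ x) / 2) * h x) volume :=
      (hEm.mul hh).aestronglyMeasurable
    rw [memLp_two_iff_integrable_sq hm]
    have : (fun x => (Real.exp (-(Ψ x) / 2) * h x) ^ 2) = fun x => h x ^ 2 * Real.exp (-Ψ x) := by
      ext x; rw [mul_pow, hexp2]; ring
    rw [this]; exact hh2
  set H : Lp ℝ 2 (volume : Measure (Fin n → ℝ)) := hhm.toLp _ with hHdef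
  have hHae := hhm.coeFn_toLp
  -- orthogonality
  have hperp : ∀ z ∈ (SS Ψ)ᗮ, ⟪z, H⟫_ℝ = 0 := by
    intro z hz
    rw [Submodule.mem_orthogonal] at hz
    have hzm : MemLp (⇑z) 2 volume := Lp.memLp z
    have hw2 : Integrable (fun x => z x ^ 2) := hzm.integrable_sq
    have hw : LocallyIntegrable (⇑z) volume := hzm.locallyIntegrable (by norm_num)
    have hweak : Weak Ψ z := by
      intro φ hφ hφc
      have hE : ContDiff ℝ ∞ (fun x => Real.exp (Ψ x / 2) * φ x) := (hΨ.div_const _).exp.mul hφ
      have hEc : HasCompactSupport (fun x => Real.exp (Ψ x / 2) * φ x) := hφc.mul_left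
      have h1 := hz ((hmem _ hE hEc).toLp _) ⟨_, hE, hEc, (hmem _ hE hEc).coeFn_toLp⟩
      rw [L2.inner_def] at h1
      rw [← h1]
      apply integral_congr_ae
      filter_upwards [(hmem _ hE hEc).coeFn_toLp] with x hx
      rw [hx, Lop_exp hΨ hφ]
      simp
    have hEp : Continuous (fun x => Real.exp (Ψ x / 2)) := (hΨ.continuous.div_const _).rexp
    have hg : LocallyIntegrable (fun x => Real.exp (Ψ x / 2) * z x) := hw.continuous_mul hEp
    obtain ⟨c, hc⟩ := const_of_weak hg (by
      intro i φ hφ hφc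
      rw [← weak_grad hΨ hw hw2 hweak i hφ hφc]
      apply integral_congr_ae
      filter_upwards with x
      ring)
    rw [L2.inner_def]
    have : ∫ x, ⟪z x, H x⟫_ℝ = ∫ x, c * (h x * Real.exp (-Ψ x)) := by
      apply integral_congr_ae
      filter_upwards [hc, hHae] with x hx hHx
      rw [hHx]
      have e1 : z x = c * Real.exp (-(Ψ x) / 2) := by
        rw [← hx]
        have : Real.exp (-(Ψ x) / 2) * Real.exp (Ψ x / 2) = 1 := by
          rw [← Real.exp_add]; simp; ring_nf
        linear_combination (-(z x)) * this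
      rw [e1, ← hexp2]
      simp
      ring
    rw [this, integral_const_mul, hmean, mul_zero]
  have hcl : H ∈ (SS Ψ).topologicalClosure := by
    rw [← Submodule.orthogonal_orthogonal_eq_closure, Submodule.mem_orthogonal]
    intro z hz
    exact hperp z hz
  have hcl' : H ∈ closure ((SS Ψ : Submodule ℝ (Lp ℝ 2 (volume : Measure (Fin n → ℝ)))) :
      Set (Lp ℝ 2 (volume : Measure (Fin n → ℝ)))) := hcl
  rw [Metric.mem_closure_iff] at hcl'
  obtain ⟨f, ⟨u, hu, huc, hfu⟩, hdist⟩ := hcl' (Real.sqrt ε) (Real.sqrt_pos.2 hε)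
  refine ⟨u, hu, huc, ?_⟩
  have hn : ‖f - H‖ ^ 2 ≤ ε := by
    rw [← dist_eq_norm, dist_comm]
    calc dist H f ^ 2 ≤ Real.sqrt ε ^ 2 := pow_le_pow_left₀ dist_nonneg hdist.le 2
      _ = ε := Real.sq_sqrt hε.le
  refine le_trans (le_of_eq ?_) hn
  rw [← real_inner_self_eq_norm_sq, L2.inner_def]
  apply integral_congr_ae
  filter_upwards [Lp.coeFn_sub f H, hfu, hHae] with x h1 h2 h3
  rw [h1, Pi.sub_apply, h2, h3, ← hexp2]
  have e : dv Ψ (fun i => pd i u) x = Lop Ψ u x := rfl
  rw [e]
  simp only [RCLike.inner_apply, conj_trivial]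
  ring

end Pool.Agent.Lib.MP_2d002d_gt.H38
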