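import Pool.Agent.Lib.MP_2d002d_gt.H38.Moll

/-!
# Density lemma, part A: Caccioppoli inequality, cut-offs (helper38)
-/

set_option autoImplicit false

open MeasureTheory Set Filter Topology
open scoped ContDiff Convolution

namespace Pool.Agent.Lib.MP_2d002d_gt.H38

variable {n : ℕ}

/-- the Laplacian -/
noncomputable def lap (f : (Fin n → ℝ) → ℝ) (x : Fin n → ℝ) : ℝ := ∑ i, pd i (pd i f) x

/-- the zero order coefficient -/
noncomputable def qf (Ψ : (Fin n → ℝ) → ℝ) (x : Fin n → ℝ) : ℝ :=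
  (∑ i, pd i Ψ x ^ 2) / 4 - lap Ψ x / 2

lemma contDiff_lap {f : (Fin n → ℝ) → ℝ} (hf : ContDiff ℝ ∞ f) : ContDiff ℝ ∞ (lap f) := by
  unfold lap
  exact ContDiff.sum fun i _ => contDiff_pd (contDiff_pd hf i) i

lemma contDiff_qf {f : (Fin n → ℝ) → ℝ} (hf : ContDiff ℝ ∞ f) : ContDiff ℝ ∞ (qf f) := by
  unfold qf
  refine ContDiff.sub (ContDiff.div_const (ContDiff.sum fun i _ => (contDiff_pd hf i).pow 2) _)
    (ContDiff.div_const (contDiff_lap hf) _)

lemma lap_hasCompactSupport {f : (Fin n → ℝ) → ℝ} (hf : HasCompactSupport f) :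
    HasCompactSupport (lap f) := by
  unfold lap
  have : (fun x => ∑ i, pd i (pd i f) x) = ∑ i, pd i (pd i f) := by
    ext x; simp
  rw [this]
  classical
  induction (Finset.univ : Finset (Fin n)) using Finset.induction_on with
  | empty => simpa using HasCompactSupport.zero
  | insert a s ha ih =>
    rw [Finset.sum_insert ha]
    exact (hasCompactSupport_pd (hasCompactSupport_pd hf a) a).add ih

/-- the twisted gradient of `v`: `exp (-Ψ/2) ∇ (exp (Ψ/2) v)` -/
noncomputable def tg (Ψ v : (Fin n → ℝ) → ℝ) (i : Fin n) (x : Fin n → ℝ) : ℝ :=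
  pd i v x + pd i Ψ x * v x / 2

lemma contDiff_tg {Ψ v : (Fin n → ℝ) → ℝ} (hΨ : ContDiff ℝ ∞ Ψ) (hv : ContDiff ℝ ∞ v)
    (i : Fin n) : ContDiff ℝ ∞ (tg Ψ v i) := by
  unfold tg
  exact (contDiff_pd hv i).add (((contDiff_pd hΨ i).mul hv).div_const _)

lemma pd_tg {Ψ v : (Fin n → ℝ) → ℝ} (hΨ : ContDiff ℝ ∞ Ψ) (hv : ContDiff ℝ ∞ v)
    (i : Fin n) (x : Fin n → ℝ) :
    pd i (tg Ψ v i) x = pd i (pd i v) x + (pd i Ψ x * pd i v x + v x * pd i (pd i Ψ) x) / 2 := by
  have e : tg Ψ v i = fun y => pd i v y + (1 / 2 : ℝ) * (pd i Ψ y * v y) := by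
    ext y; simp only [tg]; ring
  rw [e, pd_add (diffAt (contDiff_pd hv i) x)
    (diffAt (contDiff_const.mul ((contDiff_pd hΨ i).mul hv)) x),
    pd_const_mul (diffAt ((contDiff_pd hΨ i).mul hv) x), pd_mul (diffAt (contDiff_pd hΨ i) x)
    (diffAt hv x)]
  ring

lemma sum_pd_tg {Ψ v : (Fin n → ℝ) → ℝ} (hΨ : ContDiff ℝ ∞ Ψ) (hv : ContDiff ℝ ∞ v)
    (x : Fin n → ℝ) :
    ∑ i, (pd i (tg Ψ v i) x - pd i Ψ x * tg Ψ v i x / 2) = lap v x - qf Ψ x * v x := by
  have : ∀ i, pd i (tg Ψ v i) x - pd i Ψ x * tg Ψ v i x / 2 =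
      pd i (pd i v) x + v x * pd i (pd i Ψ) x / 2 - pd i Ψ x ^ 2 * v x / 4 := by
    intro i
    rw [pd_tg hΨ hv i x]
    simp only [tg]
    ring
  simp only [this, Finset.sum_sub_distrib, Finset.sum_add_distrib]
  unfold qf lap
  rw [← Finset.sum_div, ← Finset.sum_div, ← Finset.mul_sum, ← Finset.sum_mul]
  ring

/-- a continuous function of compact support is integrable (convenient form) -/
lemma int_cs {f : (Fin n → ℝ) → ℝ} (hf : Continuous f) (hs : HasCompactSupport f) :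
    Integrable f := hf.integrable_of_hasCompactSupport hs

lemma cacc_eq {Ψ v χ : (Fin n → ℝ) → ℝ} (hΨ : ContDiff ℝ ∞ Ψ) (hv : ContDiff ℝ ∞ v)
    (hχ : ContDiff ℝ ∞ χ) (hc : HasCompactSupport χ) :
    ∫ x, χ x ^ 2 * ∑ i, tg Ψ v i x ^ 2 =
      ∫ x, (-(χ x ^ 2 * (v x * (lap v x - qf Ψ x * v x))) -
        2 * χ x * v x * ∑ i, pd i χ x * tg Ψ v i x) := by
  have hg : ∀ i, ContDiff ℝ ∞ (tg Ψ v i) := contDiff_tg hΨ hv
  have hgc : ∀ i, Continuous (tg Ψ v i) := fun i => (hg i).continuous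
  have hpχ : ∀ i, Continuous (pd i χ) := fun i => (contDiff_pd hχ i).continuous
  have hpΨ : ∀ i, Continuous (pd i Ψ) := fun i => (contDiff_pd hΨ i).continuous
  have hpv : ∀ i, Continuous (pd i v) := fun i => (contDiff_pd hv i).continuous
  have hpg : ∀ i, Continuous (pd i (tg Ψ v i)) := fun i => (contDiff_pd (hg i) i).continuous
  have hc2 : HasCompactSupport (fun x => χ x ^ 2) := by
    have : (fun x => χ x ^ 2) = χ * χ := by ext x; simp [sq]
    rw [this]; exact hc.mul_right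
  -- the compact support functions
  have key : ∀ i, ∫ x, χ x ^ 2 * tg Ψ v i x ^ 2 =
      ∫ x, (-(χ x ^ 2 * (v x * (pd i (tg Ψ v i) x - pd i Ψ x * tg Ψ v i x / 2))) -
        2 * χ x * v x * (pd i χ x * tg Ψ v i x)) := by
    intro i
    have hF : ContDiff ℝ ∞ (fun x => χ x ^ 2 * tg Ψ v i x) := (hχ.pow 2).mul (hg i)
    have hFc : HasCompactSupport (fun x => χ x ^ 2 * tg Ψ v i x) := hc2.mul_right
    have h1 := ibp (contDiff_one hF) (contDiff_one hv) (Or.inl hFc) i
    have h2 : ∀ x, pd i (fun x => χ x ^ 2 * tg Ψ v i x) x =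
        χ x ^ 2 * pd i (tg Ψ v i) x + tg Ψ v i x * (2 * χ x * pd i χ x) := by
      intro x
      rw [pd_mul (diffAt (hχ.pow 2) x) (diffAt (hg i) x)]
      have : pd i (fun y => χ y ^ 2) x = 2 * χ x * pd i χ x := by
        rw [pd_congr (g := fun y => χ y * χ y) (fun y => sq (χ y)),
          pd_mul (diffAt hχ x) (diffAt hχ x)]
        ring
      rw [this]
    have i1 : Integrable (fun x => χ x ^ 2 * tg Ψ v i x * pd i v x) :=
      int_cs (((hχ.continuous.pow 2).mul (hgc i)).mul (hpv i)) hFc.mul_right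
    have i2 : Integrable (fun x => χ x ^ 2 * tg Ψ v i x * (pd i Ψ x * v x / 2)) :=
      int_cs (((hχ.continuous.pow 2).mul (hgc i)).mul
        (((hpΨ i).mul hv.continuous).div_const _)) hFc.mul_right
    have i3 : Integrable (fun x => pd i (fun x => χ x ^ 2 * tg Ψ v i x) x * v x) :=
      int_cs ((contDiff_pd hF i).continuous.mul hv.continuous)
        (hasCompactSupport_pd hFc i).mul_right
    calc ∫ x, χ x ^ 2 * tg Ψ v i x ^ 2
        = ∫ x, (χ x ^ 2 * tg Ψ v i x * pd i v x +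
            χ x ^ 2 * tg Ψ v i x * (pd i Ψ x * v x / 2)) := by
          apply integral_congr_ae
          filter_upwards with x
          simp only [tg]; ring
      _ = (∫ x, χ x ^ 2 * tg Ψ v i x * pd i v x) +
            ∫ x, χ x ^ 2 * tg Ψ v i x * (pd i Ψ x * v x / 2) := integral_add i1 i2
      _ = -(∫ x, pd i (fun x => χ x ^ 2 * tg Ψ v i x) x * v x) +
            ∫ x, χ x ^ 2 * tg Ψ v i x * (pd i Ψ x * v x / 2) := by rw [h1]
      _ = ∫ x, (-(pd i (fun x => χ x ^ 2 * tg Ψ v i x) x * v x) +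
            χ x ^ 2 * tg Ψ v i x * (pd i Ψ x * v x / 2)) := by
          have i3' : Integrable (fun x => -(pd i (fun x => χ x ^ 2 * tg Ψ v i x) x * v x)) := i3.neg
          rw [integral_add i3' i2, integral_neg]
      _ = _ := by
          apply integral_congr_ae
          filter_upwards with x
          rw [h2]; ring
  have i4 : ∀ i, Integrable (fun x => χ x ^ 2 * tg Ψ v i x ^ 2) := fun i =>
    int_cs ((hχ.continuous.pow 2).mul ((hgc i).pow 2)) hc2.mul_right
  have i5 : ∀ i, Integrable (fun x =>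
      (-(χ x ^ 2 * (v x * (pd i (tg Ψ v i) x - pd i Ψ x * tg Ψ v i x / 2))) -
        2 * χ x * v x * (pd i χ x * tg Ψ v i x))) := by
    intro i
    refine Integrable.sub ?_ ?_
    · exact (int_cs ((hχ.continuous.pow 2).mul (hv.continuous.mul
        ((hpg i).sub (((hpΨ i).mul (hgc i)).div_const _)))) hc2.mul_right).neg
    · have : (fun x => 2 * χ x * v x * (pd i χ x * tg Ψ v i x)) =
          fun x => χ x * (2 * v x * (pd i χ x * tg Ψ v i x)) := by ext x; ring
      rw [this]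
      exact int_cs (hχ.continuous.mul ((continuous_const.mul hv.continuous).mul
        ((hpχ i).mul (hgc i)))) hc.mul_right
  calc ∫ x, χ x ^ 2 * ∑ i, tg Ψ v i x ^ 2
      = ∑ i, ∫ x, χ x ^ 2 * tg Ψ v i x ^ 2 := by
        rw [← integral_finsetSum _ fun i _ => i4 i]
        simp only [Finset.mul_sum]
    _ = ∑ i, ∫ x, (-(χ x ^ 2 * (v x * (pd i (tg Ψ v i) x - pd i Ψ x * tg Ψ v i x / 2))) -
        2 * χ x * v x * (pd i χ x * tg Ψ v i x)) := Finset.sum_congr rfl fun i _ => key i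
    _ = _ := by
        rw [← integral_finsetSum _ fun i _ => i5 i]
        apply integral_congr_ae
        filter_upwards with x
        rw [Finset.sum_sub_distrib, Finset.sum_neg_distrib, ← Finset.mul_sum, ← Finset.mul_sum,
          ← Finset.mul_sum, sum_pd_tg hΨ hv x]

/-- Caccioppoli -/
lemma cacc {Ψ v χ : (Fin n → ℝ) → ℝ} (hΨ : ContDiff ℝ ∞ Ψ) (hv : ContDiff ℝ ∞ v)
    (hχ : ContDiff ℝ ∞ χ) (hc : HasCompactSupport χ) :
    ∫ x, χ x ^ 2 * ∑ i, tg Ψ v i x ^ 2 ≤
      2 * (∫ x, χ x ^ 2 * (|v x| * |lap v x - qf Ψ x * v x|)) +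
        4 * ∫ x, (∑ i, pd i χ x ^ 2) * v x ^ 2 := by
  have hg : ∀ i, ContDiff ℝ ∞ (tg Ψ v i) := contDiff_tg hΨ hv
  have hgc : ∀ i, Continuous (tg Ψ v i) := fun i => (hg i).continuous
  have hpχ : ∀ i, Continuous (pd i χ) := fun i => (contDiff_pd hχ i).continuous
  have hc2 : HasCompactSupport (fun x => χ x ^ 2) := by
    have : (fun x => χ x ^ 2) = χ * χ := by ext x; simp [sq]
    rw [this]; exact hc.mul_right
  have hκ : Continuous fun x => lap v x - qf Ψ x * v x :=
    (contDiff_lap hv).continuous.sub ((contDiff_qf hΨ).continuous.mul hv.continuous)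
  have hsc : HasCompactSupport (fun x => ∑ i, pd i χ x ^ 2) := by
    apply HasCompactSupport.intro hc
    intro x hx
    apply Finset.sum_eq_zero
    intro i _
    have : pd i χ x = 0 := by
      by_contra h
      exact hx ((tsupport_fderiv_subset ℝ) (subset_tsupport _ (by
        intro h0
        apply h
        unfold pd
        rw [h0]
        rfl)))
    rw [this]; simp
  have i1 : Integrable (fun x => χ x ^ 2 * (|v x| * |lap v x - qf Ψ x * v x|)) :=
    int_cs ((hχ.continuous.pow 2).mul (hv.continuous.abs.mul hκ.abs)) hc2.mul_right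
  have i2 : Integrable (fun x => χ x ^ 2 * ∑ i, tg Ψ v i x ^ 2) :=
    int_cs ((hχ.continuous.pow 2).mul (continuous_finsetSum _ fun i _ => (hgc i).pow 2))
      hc2.mul_right
  have i3 : Integrable (fun x => (∑ i, pd i χ x ^ 2) * v x ^ 2) :=
    int_cs ((continuous_finsetSum _ fun i _ => (hpχ i).pow 2).mul (hv.continuous.pow 2))
      hsc.mul_right
  have i4 : Integrable (fun x => -(χ x ^ 2 * (v x * (lap v x - qf Ψ x * v x))) -
        2 * χ x * v x * ∑ i, pd i χ x * tg Ψ v i x) := by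
    refine Integrable.sub (int_cs ((hχ.continuous.pow 2).mul (hv.continuous.mul hκ))
      hc2.mul_right).neg ?_
    have : (fun x => 2 * χ x * v x * ∑ i, pd i χ x * tg Ψ v i x) =
        fun x => χ x * (2 * v x * ∑ i, pd i χ x * tg Ψ v i x) := by ext x; ring
    rw [this]
    exact int_cs (hχ.continuous.mul ((continuous_const.mul hv.continuous).mul
        (continuous_finsetSum _ fun i _ => (hpχ i).mul (hgc i)))) hc.mul_right
  have h := cacc_eq hΨ hv hχ hc
  have hle : ∫ x, (-(χ x ^ 2 * (v x * (lap v x - qf Ψ x * v x))) -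
        2 * χ x * v x * ∑ i, pd i χ x * tg Ψ v i x) ≤
      ∫ x, (χ x ^ 2 * (|v x| * |lap v x - qf Ψ x * v x|) +
        (1 / 2 * (χ x ^ 2 * ∑ i, tg Ψ v i x ^ 2) + 2 * ((∑ i, pd i χ x ^ 2) * v x ^ 2))) := by
    apply integral_mono i4 (i1.add ((i2.const_mul _).add (i3.const_mul _)))
    intro x
    simp only [Pi.add_apply]
    have a1 : -(χ x ^ 2 * (v x * (lap v x - qf Ψ x * v x))) ≤
        χ x ^ 2 * (|v x| * |lap v x - qf Ψ x * v x|) := by
      rw [← mul_neg]
      apply mul_le_mul_of_nonneg_left _ (sq_nonneg _)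
      rw [← abs_mul]
      exact neg_le_abs _
    have a2 : -(2 * χ x * v x * ∑ i, pd i χ x * tg Ψ v i x) ≤
        1 / 2 * (χ x ^ 2 * ∑ i, tg Ψ v i x ^ 2) + 2 * ((∑ i, pd i χ x ^ 2) * v x ^ 2) := by
      have e1 : -(2 * χ x * v x * ∑ i, pd i χ x * tg Ψ v i x) =
          ∑ i, -(2 * χ x * v x * (pd i χ x * tg Ψ v i x)) := by
        rw [Finset.sum_neg_distrib, ← Finset.mul_sum]
      have e2 : 1 / 2 * (χ x ^ 2 * ∑ i, tg Ψ v i x ^ 2) + 2 * ((∑ i, pd i χ x ^ 2) * v x ^ 2) =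
          ∑ i, (1 / 2 * (χ x ^ 2 * tg Ψ v i x ^ 2) + 2 * (pd i χ x ^ 2 * v x ^ 2)) := by
        rw [Finset.sum_add_distrib, ← Finset.mul_sum, ← Finset.mul_sum, ← Finset.mul_sum,
          ← Finset.sum_mul]
      rw [e1, e2]
      apply Finset.sum_le_sum
      intro i _
      nlinarith [sq_nonneg (χ x * tg Ψ v i x + 2 * (pd i χ x * v x))]
    linarith
  rw [← h] at hle
  have i5 : Integrable (fun x => 1 / 2 * (χ x ^ 2 * ∑ i, tg Ψ v i x ^ 2) +
      2 * ((∑ i, pd i χ x ^ 2) * v x ^ 2)) := (i2.const_mul _).add (i3.const_mul _)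
  rw [integral_add i1 i5, integral_add (i2.const_mul _) (i3.const_mul _), integral_const_mul,
    integral_const_mul] at hle
  linarith

end Pool.Agent.Lib.MP_2d002d_gt.H38
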