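import Pool.Agent.Lib.MP_2d002d_gt.H38.DensA

/-!
# Density lemma, part B: mollification of a weak solution (helper38)
-/

set_option autoImplicit false

open MeasureTheory Set Filter Topology
open scoped ContDiff Convolution

namespace Pool.Agent.Lib.MP_2d002d_gt.H38

variable {n : ℕ}

/-- `x ↦ ρ (z - x)` -/
lemma contDiff_subLeft {ρ : (Fin n → ℝ) → ℝ} (hρ : ContDiff ℝ ∞ ρ) (z : Fin n → ℝ) :
    ContDiff ℝ ∞ (fun y => ρ (z - y)) :=
  hρ.comp (contDiff_const.sub contDiff_id)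

lemma hasCompactSupport_subLeft {ρ : (Fin n → ℝ) → ℝ} (hc : HasCompactSupport ρ)
    (z : Fin n → ℝ) : HasCompactSupport (fun y => ρ (z - y)) :=
  hc.comp_homeomorph (Homeomorph.subLeft z)

lemma pd_subLeft {ρ : (Fin n → ℝ) → ℝ} (hρ : ContDiff ℝ ∞ ρ) (z y : Fin n → ℝ) (i : Fin n) :
    pd i (fun y => ρ (z - y)) y = - pd i ρ (z - y) := by
  unfold pd
  have h1 : HasFDerivAt (fun y : Fin n → ℝ => z - y) (-(ContinuousLinearMap.id ℝ (Fin n → ℝ))) y := by
    simpa using (hasFDerivAt_id (𝕜 := ℝ) y).const_sub z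
  have h2 := ((hρ.differentiable (by simp)) (z - y)).hasFDerivAt.comp y h1
  have h3 : fderiv ℝ (fun y => ρ (z - y)) y =
      (fderiv ℝ ρ (z - y)).comp (-(ContinuousLinearMap.id ℝ (Fin n → ℝ))) := h2.fderiv
  rw [h3]
  simp

lemma lap_subLeft {ρ : (Fin n → ℝ) → ℝ} (hρ : ContDiff ℝ ∞ ρ) (z y : Fin n → ℝ) :
    lap (fun y => ρ (z - y)) y = lap ρ (z - y) := by
  unfold lap
  refine Finset.sum_congr rfl fun i _ => ?_
  have e : pd i (fun y => ρ (z - y)) = fun y => - pd i ρ (z - y) := by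
    ext w; exact pd_subLeft hρ z w i
  rw [e, pd_neg, pd_subLeft (contDiff_pd hρ i)]
  simp

lemma lap_mo {ρ g : (Fin n → ℝ) → ℝ} (hρ : ContDiff ℝ ∞ ρ) (hc : HasCompactSupport ρ)
    (hg : LocallyIntegrable g) (x : Fin n → ℝ) : lap (mo ρ g) x = mo (lap ρ) g x := by
  unfold lap
  have e : ∀ i, pd i (pd i (mo ρ g)) = mo (pd i (pd i ρ)) g := by
    intro i
    rw [pd_mo hρ hc hg i, pd_mo (contDiff_pd hρ i) (hasCompactSupport_pd hc i) hg i]
  simp only [e]
  unfold mo
  rw [← integral_finsetSum _ fun i _ => mo_integrable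
    (contDiff_pd (contDiff_pd hρ i) i).continuous
    (hasCompactSupport_pd (hasCompactSupport_pd hc i) i) hg x]
  apply integral_congr_ae
  filter_upwards with y
  rw [Finset.sum_mul]

lemma li_abs {w : (Fin n → ℝ) → ℝ} (hw : LocallyIntegrable w) :
    LocallyIntegrable (fun y => |w y|) := fun x => by
  simpa using (hw x).norm

/-- the weak equation -/
def Weak (Ψ w : (Fin n → ℝ) → ℝ) : Prop :=
  ∀ φ : (Fin n → ℝ) → ℝ, ContDiff ℝ ∞ φ → HasCompactSupport φ →
    ∫ y, w y * (lap φ y - qf Ψ y * φ y) = 0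

/-- the commutator of a mollified weak solution -/
lemma comm_eq {Ψ w ρ : (Fin n → ℝ) → ℝ} (hΨ : ContDiff ℝ ∞ Ψ) (hw : LocallyIntegrable w)
    (hweak : Weak Ψ w) (hρ : ContDiff ℝ ∞ ρ) (hc : HasCompactSupport ρ) (x : Fin n → ℝ) :
    lap (mo ρ w) x - qf Ψ x * mo ρ w x = ∫ y, (qf Ψ y - qf Ψ x) * (ρ (x - y) * w y) := by
  have hq : Continuous (qf Ψ) := (contDiff_qf hΨ).continuous
  have h := hweak (fun y => ρ (x - y)) (contDiff_subLeft hρ x) (hasCompactSupport_subLeft hc x)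
  simp only [lap_subLeft hρ] at h
  have i1 : Integrable fun y => lap ρ (x - y) * w y :=
    mo_integrable (contDiff_lap hρ).continuous (lap_hasCompactSupport hc) hw x
  have i2 : Integrable fun y => ρ (x - y) * w y := mo_integrable hρ.continuous hc hw x
  have i3 : Integrable fun y => qf Ψ y * (ρ (x - y) * w y) := by
    have h1 : Continuous fun y => qf Ψ y * ρ (x - y) :=
      hq.mul (hρ.continuous.comp (continuous_const.sub continuous_id))
    have h2 : HasCompactSupport fun y => qf Ψ y * ρ (x - y) :=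
      (hasCompactSupport_subLeft hc x).mul_left
    have := hw.integrable_smul_left_of_hasCompactSupport h1 h2
    simpa [mul_assoc] using this
  have h' : (∫ y, lap ρ (x - y) * w y) - ∫ y, qf Ψ y * (ρ (x - y) * w y) = 0 := by
    rw [← integral_sub i1 i3, ← h]
    apply integral_congr_ae
    filter_upwards with y
    ring
  rw [lap_mo hρ hc hw]
  have e : ∫ y, (qf Ψ y - qf Ψ x) * (ρ (x - y) * w y) =
      (∫ y, qf Ψ y * (ρ (x - y) * w y)) - qf Ψ x * ∫ y, ρ (x - y) * w y := by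
    rw [← integral_const_mul, ← integral_sub i3 (i2.const_mul _)]
    apply integral_congr_ae
    filter_upwards with y
    ring
  rw [e]
  unfold mo
  linarith

/-- bound of the commutator -/
lemma comm_le {Ψ w ρ : (Fin n → ℝ) → ℝ} (hΨ : ContDiff ℝ ∞ Ψ) (hw : LocallyIntegrable w)
    (hweak : Weak Ψ w) (hρ : ContDiff ℝ ∞ ρ) (hc : HasCompactSupport ρ) (hρ0 : ∀ x, 0 ≤ ρ x)
    {x : Fin n → ℝ} {η : ℝ} (hη : ∀ y, ρ (x - y) ≠ 0 → |qf Ψ y - qf Ψ x| ≤ η) :
    |lap (mo ρ w) x - qf Ψ x * mo ρ w x| ≤ η * mo ρ (fun y => |w y|) x := by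
  rw [comm_eq hΨ hw hweak hρ hc x]
  have i2 : Integrable fun y => ρ (x - y) * |w y| :=
    mo_integrable hρ.continuous hc (li_abs hw) x
  calc |∫ y, (qf Ψ y - qf Ψ x) * (ρ (x - y) * w y)|
      ≤ ∫ y, |(qf Ψ y - qf Ψ x) * (ρ (x - y) * w y)| := abs_integral_le_integral_abs
    _ ≤ ∫ y, η * (ρ (x - y) * |w y|) := by
        apply integral_mono_of_nonneg
        · filter_upwards with y using abs_nonneg _
        · exact i2.const_mul _
        · filter_upwards with y
          rw [abs_mul, abs_mul, abs_of_nonneg (hρ0 _)]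
          by_cases h : ρ (x - y) = 0
          · simp [h]
          · exact mul_le_mul_of_nonneg_right (hη y h)
              (mul_nonneg (hρ0 _) (abs_nonneg _))
    _ = _ := by rw [integral_const_mul]; rfl

lemma abs_mo_le {w ρ : (Fin n → ℝ) → ℝ} (hρ0 : ∀ x, 0 ≤ ρ x) (x : Fin n → ℝ) :
    |mo ρ w x| ≤ mo ρ (fun y => |w y|) x := by
  unfold mo
  refine abs_integral_le_integral_abs.trans (le_of_eq ?_)
  apply integral_congr_ae
  filter_upwards with y
  rw [abs_mul, abs_of_nonneg (hρ0 _)]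

/-- Jensen for the mollification -/
lemma mo_sq_le {w ρ : (Fin n → ℝ) → ℝ} (hρ : Continuous ρ) (hc : HasCompactSupport ρ)
    (hρ0 : ∀ x, 0 ≤ ρ x) (hρ1 : ∫ x, ρ x = 1) (hw : LocallyIntegrable w)
    (hw2 : Integrable (fun x => w x ^ 2)) (x : Fin n → ℝ) :
    mo ρ (fun y => |w y|) x ^ 2 ≤ mo ρ (fun y => w y ^ 2) x := by
  set a := mo ρ (fun y => |w y|) x with ha
  have i1 : Integrable fun y => ρ (x - y) * |w y| :=
    mo_integrable hρ hc (li_abs hw) x
  have i2 : Integrable fun y => ρ (x - y) * w y ^ 2 :=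
    mo_integrable hρ hc hw2.locallyIntegrable x
  have i3 : Integrable fun y => ρ (x - y) := by
    have := mo_integrable hρ hc (g := fun _ => (1 : ℝ)) (locallyIntegrable_const 1) x
    simpa using this
  have e3 : ∫ y, ρ (x - y) = 1 := by
    rw [integral_sub_left_eq_self (fun z => ρ z) volume x, hρ1]
  have h : ∫ y, (2 * a * (ρ (x - y) * |w y|) - a ^ 2 * ρ (x - y)) ≤
      ∫ y, ρ (x - y) * w y ^ 2 := by
    apply integral_mono ((i1.const_mul _).sub (i3.const_mul _)) i2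
    intro y
    simp only [Pi.sub_apply]
    have h0 := hρ0 (x - y)
    nlinarith [mul_nonneg h0 (sq_nonneg (|w y| - a)), sq_abs (w y)]
  rw [integral_sub (i1.const_mul _) (i3.const_mul _), integral_const_mul, integral_const_mul,
    e3] at h
  have e1 : ∫ y, ρ (x - y) * |w y| = a := rfl
  rw [e1] at h
  unfold mo at *
  nlinarith

lemma continuous_mo {ρ g : (Fin n → ℝ) → ℝ} (hρ : ContDiff ℝ ∞ ρ) (hc : HasCompactSupport ρ)
    (hg : LocallyIntegrable g) : Continuous (mo ρ g) := (contDiff_mo hρ hc hg).continuous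

lemma integral_mo {ρ g : (Fin n → ℝ) → ℝ} (hρ : Integrable ρ) (hρ1 : ∫ x, ρ x = 1)
    (hg : Integrable g) : Integrable (mo ρ g) ∧ ∫ x, mo ρ g x = ∫ x, g x := by
  rw [mo_eq_conv]
  refine ⟨hρ.integrable_convolution _ hg, ?_⟩
  rw [integral_convolution _ hρ hg, hρ1]
  simp

lemma young {w ρ : (Fin n → ℝ) → ℝ} (hρ : ContDiff ℝ ∞ ρ) (hc : HasCompactSupport ρ)
    (hρ0 : ∀ x, 0 ≤ ρ x) (hρ1 : ∫ x, ρ x = 1) (hw : LocallyIntegrable w)
    (hw2 : Integrable (fun x => w x ^ 2)) :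
    Integrable (fun x => mo ρ (fun y => |w y|) x ^ 2) ∧
      ∫ x, mo ρ (fun y => |w y|) x ^ 2 ≤ ∫ x, w x ^ 2 := by
  obtain ⟨h1, h2⟩ := integral_mo (hρ.continuous.integrable_of_hasCompactSupport hc) hρ1 hw2
  have habs : LocallyIntegrable fun y => |w y| := li_abs hw
  have h3 : Integrable (fun x => mo ρ (fun y => |w y|) x ^ 2) := by
    apply h1.mono' ((continuous_mo hρ hc habs).pow 2).aestronglyMeasurable
    filter_upwards with x
    rw [Pi.pow_apply, Real.norm_of_nonneg (sq_nonneg _)]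
    exact mo_sq_le hρ.continuous hc hρ0 hρ1 hw hw2 x
  refine ⟨h3, ?_⟩
  rw [← h2]
  exact integral_mono h3 h1 fun x => mo_sq_le hρ.continuous hc hρ0 hρ1 hw hw2 x

end Pool.Agent.Lib.MP_2d002d_gt.H38
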