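import Pool.Agent.Lib.MP_2d002d_gt.H38.DensB

/-!
# Density lemma, part C: cut-offs, passage to the limit, constancy (helper38)
-/

set_option autoImplicit false

open MeasureTheory Set Filter Topology
open scoped ContDiff Convolution

namespace Pool.Agent.Lib.MP_2d002d_gt.H38

variable {n : ℕ}

/-- cut-off functions with small gradient -/
lemma exists_cutoff {S : Set (Fin n → ℝ)} (hS : IsCompact S) {η : ℝ} (hη : 0 < η) :
    ∃ χ : (Fin n → ℝ) → ℝ, ContDiff ℝ ∞ χ ∧ HasCompactSupport χ ∧ (∀ x ∈ S, χ x = 1) ∧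
      (∀ x, 0 ≤ χ x ∧ χ x ≤ 1) ∧ ∀ x, ∑ i, pd i χ x ^ 2 ≤ η := by
  let f : ContDiffBump (0 : Fin n → ℝ) := ⟨1, 2, one_pos, one_lt_two⟩
  have hf : ContDiff ℝ ∞ f := f.contDiff
  have hfc : HasCompactSupport f := f.hasCompactSupport
  obtain ⟨C, hC⟩ : ∃ C, ∀ x, ‖fderiv ℝ f x‖ ≤ C :=
    (hfc.fderiv (𝕜 := ℝ)).exists_bound_of_continuous ((contDiff_one hf).continuous_fderiv (by simp))
  have hC0 : 0 ≤ C := (norm_nonneg _).trans (hC 0)
  obtain ⟨R0, hR0⟩ := hS.isBounded.exists_norm_le
  obtain ⟨N, hN⟩ := exists_nat_gt (n * C ^ 2 / η)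
  set R : ℝ := max (max R0 1) N with hR
  have hR1 : 1 ≤ R := le_trans (le_max_right _ _) (le_max_left _ _)
  have hRpos : 0 < R := by linarith
  refine ⟨fun x => f (R⁻¹ • x), hf.comp (contDiff_const_smul _), ?_, ?_, ?_, ?_⟩
  · exact hfc.comp_homeomorph (Homeomorph.smulOfNeZero R⁻¹ (inv_ne_zero hRpos.ne'))
  · intro x hx
    apply f.one_of_mem_closedBall
    rw [Metric.mem_closedBall, dist_zero_right, norm_smul, norm_inv, Real.norm_of_nonneg hRpos.le]
    change R⁻¹ * ‖x‖ ≤ 1
    rw [inv_mul_le_iff₀ hRpos, mul_one]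
    exact (hR0 x hx).trans ((le_max_left _ _).trans (le_max_left _ _))
  · intro x
    exact ⟨f.nonneg, f.le_one⟩
  · intro x
    have h1 : ∀ i, |pd i (fun x => f (R⁻¹ • x)) x| ≤ C / R := by
      intro i
      unfold pd
      have h2 : HasFDerivAt (fun x : Fin n → ℝ => R⁻¹ • x)
          (R⁻¹ • ContinuousLinearMap.id ℝ (Fin n → ℝ)) x := by
        simpa using (hasFDerivAt_id (𝕜 := ℝ) x).const_smul R⁻¹
      have h3 := ((hf.differentiable (by simp)) (R⁻¹ • x)).hasFDerivAt.comp x h2
      have h4 : fderiv ℝ (fun x => f (R⁻¹ • x)) x = _ := h3.fderiv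
      rw [h4]
      simp only [ContinuousLinearMap.comp_smul, ContinuousLinearMap.comp_id,
        smul_apply, smul_eq_mul, abs_mul, abs_inv, abs_of_pos hRpos]
      rw [div_eq_inv_mul]
      apply mul_le_mul_of_nonneg_left _ (inv_nonneg.2 hRpos.le)
      have := (fderiv ℝ f (R⁻¹ • x)).le_opNorm (Pi.single i 1)
      rw [Real.norm_eq_abs] at this
      refine this.trans ?_
      have hs : ‖(Pi.single i 1 : Fin n → ℝ)‖ = 1 := by
        rw [Pi.norm_single]; simp
      rw [hs, mul_one]
      exact hC _
    have h5 : ∀ i ∈ (Finset.univ : Finset (Fin n)),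
        pd i (fun x => f (R⁻¹ • x)) x ^ 2 ≤ (C / R) ^ 2 := by
      intro i _
      rw [← sq_abs]
      exact pow_le_pow_left₀ (abs_nonneg _) (h1 i) 2
    refine (Finset.sum_le_sum h5).trans ?_
    simp only [Finset.sum_const, Finset.card_univ, Fintype.card_fin, nsmul_eq_mul]
    have hNR : (N : ℝ) ≤ R := le_max_right _ _
    have : n * C ^ 2 / η ≤ R ^ 2 := by nlinarith
    rw [div_le_iff₀ hη] at this
    rw [div_pow, ← mul_div_assoc, div_le_iff₀ (by positivity)]
    linarith

/-- Fubini for the mollification -/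
lemma integral_mo_mul {ρ w θ : (Fin n → ℝ) → ℝ} (hρ : Continuous ρ) (hc : HasCompactSupport ρ)
    (hρe : ∀ x, ρ (-x) = ρ x) (hw : LocallyIntegrable w) (hθ : Continuous θ)
    (hθc : HasCompactSupport θ) :
    ∫ x, mo ρ w x * θ x = ∫ y, w y * mo ρ θ y := by
  set K : Set (Fin n → ℝ) :=
    (fun p : (Fin n → ℝ) × (Fin n → ℝ) => p.1 - p.2) '' (tsupport θ ×ˢ tsupport ρ) with hK
  have hKc : IsCompact K := (IsCompact.prod hθc hc).image (continuous_fst.sub continuous_snd)
  set w1 : (Fin n → ℝ) → ℝ := K.indicator w with hw1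
  have hw1i : Integrable w1 := by
    rw [hw1, integrable_indicator_iff hKc.measurableSet]
    exact hw.integrableOn_isCompact hKc
  have hθi : Integrable θ := hθ.integrable_of_hasCompactSupport hθc
  have key : ∀ x y, ρ (x - y) * w y * θ x = ρ (x - y) * (θ x * w1 y) := by
    intro x y
    by_cases h : y ∈ K
    · rw [hw1, indicator_of_mem h]; ring
    · rw [hw1, indicator_of_notMem h]
      have : ρ (x - y) = 0 ∨ θ x = 0 := by
        by_contra hcon
        push Not at hcon
        apply h
        refine ⟨(x, x - y), ⟨subset_tsupport _ hcon.2, subset_tsupport _ hcon.1⟩, by simp⟩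
      rcases this with h | h <;> simp [h]
  obtain ⟨C, hC⟩ := hc.exists_bound_of_continuous hρ
  have hint : Integrable (fun z : (Fin n → ℝ) × (Fin n → ℝ) => ρ (z.1 - z.2) * (θ z.1 * w1 z.2))
      (volume.prod volume) := by
    apply (hθi.mul_prod hw1i).bdd_mul (c := C)
    · exact (hρ.comp (continuous_fst.sub continuous_snd)).aestronglyMeasurable
    · filter_upwards with z using hC _
  calc ∫ x, mo ρ w x * θ x = ∫ x, ∫ y, ρ (x - y) * (θ x * w1 y) := by
        apply integral_congr_ae
        filter_upwards with x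
        unfold mo
        rw [← integral_mul_const]
        apply integral_congr_ae
        filter_upwards with y using key x y
    _ = ∫ y, ∫ x, ρ (x - y) * (θ x * w1 y) := integral_integral_swap hint
    _ = ∫ y, w y * mo ρ θ y := by
        apply integral_congr_ae
        filter_upwards with y
        unfold mo
        rw [← integral_const_mul]
        apply integral_congr_ae
        filter_upwards with x
        rw [← key x y, ← hρe (y - x), neg_sub]
        ring

/-- the normalised bumps -/
noncomputable def bump (n k : ℕ) : ContDiffBump (0 : Fin n → ℝ) :=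
  ⟨1 / (2 * (k + 1)), 1 / (k + 1), by positivity, by
    apply one_div_lt_one_div_of_lt
    · positivity
    · have : (0 : ℝ) < k + 1 := by positivity
      linarith⟩

/-- normalised bump functions -/
noncomputable def bn (n k : ℕ) : (Fin n → ℝ) → ℝ := (bump n k).normed volume

lemma bn_contDiff (k : ℕ) : ContDiff ℝ ∞ (bn n k) := (bump n k).contDiff_normed
lemma bn_supp (k : ℕ) : HasCompactSupport (bn n k) := (bump n k).hasCompactSupport_normed
lemma bn_nonneg (k : ℕ) (x : Fin n → ℝ) : 0 ≤ bn n k x := (bump n k).nonneg_normed x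
lemma bn_integral (k : ℕ) : ∫ x, bn n k x = 1 := (bump n k).integral_normed
lemma bn_even (k : ℕ) (x : Fin n → ℝ) : bn n k (-x) = bn n k x := (bump n k).normed_neg x
lemma bn_zero {k : ℕ} {x : Fin n → ℝ} (h : bn n k x ≠ 0) : ‖x‖ < 1 / (k + 1) := by
  have : x ∈ Function.support ((bump n k).normed volume) := h
  rw [(bump n k).support_normed_eq] at this
  simpa [bump] using this

lemma tendsto_rOut : Tendsto (fun k : ℕ => (bump n k).rOut) atTop (𝓝 0) := by
  have : (fun k : ℕ => (bump n k).rOut) = fun k : ℕ => 1 / ((k : ℝ) + 1) := by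
    ext k; rfl
  rw [this]
  exact tendsto_one_div_add_atTop_nhds_zero_nat

/-- mollification of a continuous function with compact support: uniform convergence and a common
compact support -/
lemma mo_close {θ : (Fin n → ℝ) → ℝ} (hθ : Continuous θ) (hθc : HasCompactSupport θ) {δ : ℝ}
    (hδ : 0 < δ) : ∀ᶠ k : ℕ in atTop, ∀ x, |mo (bn n k) θ x - θ x| ≤ δ := by
  have hu : UniformContinuous θ := hθc.uniformContinuous_of_continuous hθ
  rw [Metric.uniformContinuous_iff] at hu
  obtain ⟨ε, hε, h⟩ := hu δ hδ
  have h1 := (tendsto_rOut (n := n)).eventually (gt_mem_nhds hε)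
  filter_upwards [h1] with k hk x
  have := (bump n k).dist_normed_convolution_le (μ := volume) (x₀ := x) (ε := δ)
    hθ.aestronglyMeasurable (g := θ) (by
      intro y hy
      refine (h ?_).le
      rw [Metric.mem_ball] at hy
      exact hy.trans hk)
  rw [mo_eq_conv, ← Real.dist_eq]
  exact this

lemma integral_mo_tendsto {w θ : (Fin n → ℝ) → ℝ} (hw : LocallyIntegrable w) (hθ : Continuous θ)
    (hθc : HasCompactSupport θ) :
    Tendsto (fun k : ℕ => ∫ x, mo (bn n k) w x * θ x) atTop (𝓝 (∫ x, w x * θ x)) := by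
  have e : ∀ k, ∫ x, mo (bn n k) w x * θ x = ∫ y, w y * mo (bn n k) θ y := fun k =>
    integral_mo_mul (bn_contDiff k).continuous (bn_supp k) (bn_even k) hw hθ hθc
  simp only [e]
  set K : Set (Fin n → ℝ) := Metric.cthickening 1 (tsupport θ) with hK
  have hKc : IsCompact K := hθc.isCompact.cthickening
  have hz : ∀ k : ℕ, ∀ y ∉ K, mo (bn n k) θ y = 0 := by
    intro k y hy
    unfold mo
    rw [← integral_zero (Fin n → ℝ) ℝ]
    apply integral_congr_ae
    filter_upwards with x
    by_contra hne
    have h1 : bn n k (y - x) ≠ 0 := fun h => hne (by simp [h])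
    have h2 : θ x ≠ 0 := fun h => hne (by simp [h])
    apply hy
    apply Metric.mem_cthickening_of_dist_le y x 1 _ (subset_tsupport _ h2)
    rw [dist_eq_norm]
    refine (bn_zero h1).le.trans ?_
    rw [div_le_one (by positivity)]
    have : (0 : ℝ) ≤ k := by positivity
    linarith
  have hz0 : ∀ y ∉ K, θ y = 0 := by
    intro y hy
    by_contra h
    exact hy (Metric.self_subset_cthickening _ (subset_tsupport _ h))
  have hwK : IntegrableOn (fun y => |w y|) K := (li_abs hw).integrableOn_isCompact hKc
  rw [Metric.tendsto_nhds]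
  intro ε hε
  set M : ℝ := ∫ y in K, |w y| with hM
  have hM0 : 0 ≤ M := integral_nonneg fun y => abs_nonneg _
  have hev := mo_close hθ hθc (δ := ε / (2 * (M + 1))) (by positivity)
  filter_upwards [hev] with k hk
  have hc' : Continuous (mo (bn n k) θ) :=
    continuous_mo (bn_contDiff k) (bn_supp k) hθ.locallyIntegrable
  have hcs : HasCompactSupport (mo (bn n k) θ) := HasCompactSupport.intro hKc (hz k)
  have i1 : Integrable fun y => w y * mo (bn n k) θ y := by
    have := hw.integrable_smul_left_of_hasCompactSupport hc' hcs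
    simpa [mul_comm] using this
  have i2 : Integrable fun y => w y * θ y := by
    have := hw.integrable_smul_left_of_hasCompactSupport hθ hθc
    simpa [mul_comm] using this
  rw [Real.dist_eq, ← integral_sub i1 i2]
  have hle : |∫ y, (w y * mo (bn n k) θ y - w y * θ y)| ≤ ∫ y, K.indicator (fun y => |w y|) y *
      (ε / (2 * (M + 1))) := by
    refine abs_integral_le_integral_abs.trans ?_
    apply integral_mono_of_nonneg
    · filter_upwards with y using abs_nonneg _
    · exact ((integrable_indicator_iff hKc.measurableSet).2 hwK).mul_const _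
    · filter_upwards with y
      by_cases h : y ∈ K
      · rw [indicator_of_mem h, ← mul_sub, abs_mul]
        exact mul_le_mul_of_nonneg_left (hk y) (abs_nonneg _)
      · rw [indicator_of_notMem h, hz k y h, hz0 y h]
        simp
  refine lt_of_le_of_lt hle ?_
  rw [integral_mul_const, integral_indicator hKc.measurableSet, ← hM]
  have : M * (ε / (2 * (M + 1))) = (M / (M + 1)) * (ε / 2) := by
    field_simp
  rw [this]
  have h1 : M / (M + 1) ≤ 1 := by
    rw [div_le_one (by linarith)]; linarith
  have : (M / (M + 1)) * (ε / 2) ≤ 1 * (ε / 2) :=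
    mul_le_mul_of_nonneg_right h1 (by linarith)
  linarith

/-- a locally integrable function with zero weak gradient is constant -/
lemma const_of_weak {g : (Fin n → ℝ) → ℝ} (hg : LocallyIntegrable g)
    (h : ∀ (i : Fin n) (φ : (Fin n → ℝ) → ℝ), ContDiff ℝ ∞ φ → HasCompactSupport φ →
      ∫ x, g x * pd i φ x = 0) : ∃ c : ℝ, ∀ᵐ x, g x = c := by
  have hconst : ∀ k : ℕ, ∃ c : ℝ, ∀ x, mo (bn n k) g x = c := by
    intro k
    have hd : ContDiff ℝ ∞ (mo (bn n k) g) := contDiff_mo (bn_contDiff k) (bn_supp k) hg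
    refine ⟨mo (bn n k) g 0, fun x => ?_⟩
    apply is_const_of_fderiv_eq_zero (hd.differentiable (by simp)) (𝕜 := ℝ)
    intro y
    ext v
    rw [fderiv_eq_sum_pd]
    simp only [zero_apply]
    apply Finset.sum_eq_zero
    intro i _
    have : pd i (mo (bn n k) g) y = 0 := by
      rw [pd_mo (bn_contDiff k) (bn_supp k) hg i]
      have h1 := h i (fun x => bn n k (y - x)) (contDiff_subLeft (bn_contDiff k) y)
        (hasCompactSupport_subLeft (bn_supp k) y)
      simp only [pd_subLeft (bn_contDiff k)] at h1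
      unfold mo
      rw [← neg_eq_zero, ← h1, ← integral_neg]
      apply integral_congr_ae
      filter_upwards with z
      ring
    rw [this, mul_zero]
  choose c hc using hconst
  have hae := ContDiffBump.ae_convolution_tendsto_right_of_locallyIntegrable (μ := volume)
    (φ := fun k : ℕ => bump n k) (l := atTop) (K := 2) tendsto_rOut
    (Eventually.of_forall fun k => by
      change 1 / ((k : ℝ) + 1) ≤ 2 * (1 / (2 * (k + 1)))
      apply le_of_eq
      field_simp) hg
  have hae' : ∀ᵐ x, Tendsto c atTop (𝓝 (g x)) := by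
    filter_upwards [hae] with x hx
    have : (fun k : ℕ => c k) = fun k => ((bump n k).normed volume
      ⋆[ContinuousLinearMap.lsmul ℝ ℝ, volume] g) x := by
      ext k
      rw [← hc k x, mo_eq_conv]
      rfl
    change Tendsto (fun k => c k) atTop _
    rw [this]
    exact hx
  obtain ⟨x0, hx0⟩ := hae'.exists
  refine ⟨g x0, ?_⟩
  filter_upwards [hae'] with x hx using tendsto_nhds_unique hx hx0

end Pool.Agent.Lib.MP_2d002d_gt.H38
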