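import Pool.Agent.Lib.MP_2d002d_gt.Basic

/-!
# Mollification (helper38)
-/

set_option autoImplicit false

open MeasureTheory Set Filter Topology
open scoped ContDiff Convolution

namespace Pool.Agent.Lib.MP_2d002d_gt.H38

variable {n : ℕ}

/-- mollification -/
noncomputable def mo (ρ g : (Fin n → ℝ) → ℝ) (x : Fin n → ℝ) : ℝ := ∫ y, ρ (x - y) * g y

lemma mo_eq_conv (ρ g : (Fin n → ℝ) → ℝ) :
    mo ρ g = ρ ⋆[ContinuousLinearMap.lsmul ℝ ℝ, volume] g := by
  ext x
  rw [convolution_lsmul_swap]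
  simp [mo]

lemma contDiff_mo {ρ g : (Fin n → ℝ) → ℝ} (hρ : ContDiff ℝ ∞ ρ) (hc : HasCompactSupport ρ)
    (hg : LocallyIntegrable g) : ContDiff ℝ ∞ (mo ρ g) := by
  rw [mo_eq_conv]
  exact hc.contDiff_convolution_left _ hρ hg

lemma mo_integrable {ρ g : (Fin n → ℝ) → ℝ} (hρ : Continuous ρ) (hc : HasCompactSupport ρ)
    (hg : LocallyIntegrable g) (x : Fin n → ℝ) : Integrable (fun y => ρ (x - y) * g y) := by
  have h1 : Continuous fun y => ρ (x - y) := hρ.comp (continuous_const.sub continuous_id)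
  have h2 : HasCompactSupport fun y => ρ (x - y) :=
    hc.comp_homeomorph (Homeomorph.subLeft x)
  have := hg.integrable_smul_left_of_hasCompactSupport h1 h2
  simpa using this

lemma pd_mo {ρ g : (Fin n → ℝ) → ℝ} (hρ : ContDiff ℝ ∞ ρ) (hc : HasCompactSupport ρ)
    (hg : LocallyIntegrable g) (i : Fin n) : pd i (mo ρ g) = mo (pd i ρ) g := by
  have h1 := contDiff_one hρ
  ext x
  have h := hc.hasFDerivAt_convolution_left (ContinuousLinearMap.lsmul ℝ ℝ) h1 hg x
  rw [← mo_eq_conv] at h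
  unfold pd
  rw [h.fderiv, convolution_eq_swap]
  have hint : Integrable fun t => (ContinuousLinearMap.precompL (Fin n → ℝ)
      (ContinuousLinearMap.lsmul ℝ ℝ)) (fderiv ℝ ρ (x - t)) (g t) := by
    have e := (hc.fderiv (𝕜 := ℝ)).convolutionExists_left
      (ContinuousLinearMap.precompL (Fin n → ℝ) (ContinuousLinearMap.lsmul ℝ ℝ))
      (h1.continuous_fderiv (by simp)) hg x
    exact e.integrable_swap
  rw [ContinuousLinearMap.integral_apply hint]
  simp [mo, mul_comm]

end Pool.Agent.Lib.MP_2d002d_gt.H38
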