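import Pool.Agent.Lib.MP_2d002d_gt.H50.BL
import Pool.Agent.Lib.MP_2d002d_gt.H74.Basic
import Pool.Agent.Lib.MP_2d002d_gt.H74.Poly

/-!
# MP_2d002d_gt, module M7: the static inequality (helper38)
-/

set_option autoImplicit false

open MeasureTheory Set Filter Topology
open scoped ContDiff

namespace Pool.Agent.Lib.MP_2d002d_gt.H38

variable {n d : ℕ}

/-- polynomial growth -/
def Gr (f : (Fin n → ℝ) → ℝ) : Prop :=
  ∃ K : ℝ, 0 ≤ K ∧ ∃ m : ℕ, ∀ x, |f x| ≤ K * (1 + ∑ i, x i ^ 2) ^ m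

lemma one_le_S (x : Fin n → ℝ) : 1 ≤ 1 + ∑ i, x i ^ 2 := by
  have : 0 ≤ ∑ i, x i ^ 2 := Finset.sum_nonneg fun i _ => sq_nonneg _
  linarith

lemma Gr.mul {f g : (Fin n → ℝ) → ℝ} (hf : Gr f) (hg : Gr g) : Gr (fun x => f x * g x) := by
  obtain ⟨K, hK, m, h⟩ := hf
  obtain ⟨L, hL, l, h'⟩ := hg
  refine ⟨K * L, mul_nonneg hK hL, m + l, fun x => ?_⟩
  have h1 := one_le_S x
  rw [abs_mul, pow_add]
  calc |f x| * |g x| ≤ (K * (1 + ∑ i, x i ^ 2) ^ m) * (L * (1 + ∑ i, x i ^ 2) ^ l) :=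
        mul_le_mul (h x) (h' x) (abs_nonneg _) (mul_nonneg hK (by positivity))
    _ = _ := by ring

lemma Gr.add {f g : (Fin n → ℝ) → ℝ} (hf : Gr f) (hg : Gr g) : Gr (fun x => f x + g x) := by
  obtain ⟨K, hK, m, h⟩ := hf
  obtain ⟨L, hL, l, h'⟩ := hg
  refine ⟨K + L, add_nonneg hK hL, m + l, fun x => ?_⟩
  have h1 := one_le_S x
  have a1 : (1 + ∑ i, x i ^ 2) ^ m ≤ (1 + ∑ i, x i ^ 2) ^ (m + l) :=
    pow_le_pow_right₀ h1 (Nat.le_add_right _ _)
  have a2 : (1 + ∑ i, x i ^ 2) ^ l ≤ (1 + ∑ i, x i ^ 2) ^ (m + l) :=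
    pow_le_pow_right₀ h1 (Nat.le_add_left _ _)
  calc |f x + g x| ≤ |f x| + |g x| := abs_add_le _ _
    _ ≤ K * (1 + ∑ i, x i ^ 2) ^ m + L * (1 + ∑ i, x i ^ 2) ^ l := add_le_add (h x) (h' x)
    _ ≤ K * (1 + ∑ i, x i ^ 2) ^ (m + l) + L * (1 + ∑ i, x i ^ 2) ^ (m + l) :=
        add_le_add (mul_le_mul_of_nonneg_left a1 hK) (mul_le_mul_of_nonneg_left a2 hL)
    _ = _ := by ring

lemma Gr.bdd {f : (Fin n → ℝ) → ℝ} {C : ℝ} (h : ∀ x, |f x| ≤ C) : Gr f := by
  refine ⟨|C|, abs_nonneg _, 0, fun x => ?_⟩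
  rw [pow_zero, mul_one]
  exact (h x).trans (le_abs_self _)

lemma Gr.const (c : ℝ) : Gr (fun _ : Fin n → ℝ => c) := Gr.bdd fun _ => le_rfl

lemma Gr.coord (j : Fin n) : Gr (fun x : Fin n → ℝ => x j) := by
  refine ⟨1, zero_le_one, 1, fun x => ?_⟩
  have h1 : x j ^ 2 ≤ ∑ i, x i ^ 2 :=
    Finset.single_le_sum (f := fun i => x i ^ 2) (fun i _ => sq_nonneg _) (Finset.mem_univ j)
  rw [one_mul, pow_one]
  have h2 := sq_abs (x j)
  nlinarith [sq_nonneg (|x j| - 1), abs_nonneg (x j)]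

lemma Gr.sum {ι : Type*} (s : Finset ι) {F : ι → (Fin n → ℝ) → ℝ}
    (h : ∀ i ∈ s, Gr (F i)) : Gr (fun x => ∑ i ∈ s, F i x) := by
  classical
  induction s using Finset.induction_on with
  | empty => simpa using Gr.const (n := n) 0
  | insert a s ha ih =>
    have h1 := (h a (Finset.mem_insert_self a s)).add
      (ih fun i hi => h i (Finset.mem_insert_of_mem hi))
    simpa only [Finset.sum_insert ha] using h1

lemma Gr.pow {f : (Fin n → ℝ) → ℝ} (hf : Gr f) (k : ℕ) : Gr (fun x => f x ^ k) := by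
  induction k with
  | zero => simpa using Gr.const (n := n) 1
  | succ k ih => simpa only [pow_succ] using ih.mul hf

lemma Gr.compact {f : (Fin n → ℝ) → ℝ} (hf : Continuous f) (hs : HasCompactSupport f) : Gr f := by
  obtain ⟨C, hC⟩ := hs.exists_bound_of_continuous hf
  exact Gr.bdd hC

/-- integrability -/
lemma Gr.integrable {P f : (Fin n → ℝ) → ℝ} (hP : Continuous P)
    (hlow : ∃ c : ℝ, 0 < c ∧ ∃ C : ℝ, ∀ x, c * ∑ i, x i ^ 2 - C ≤ P x) (hf : Continuous f)
    (hb : Gr f) : Integrable (fun x => f x * Real.exp (-P x)) := by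
  obtain ⟨c, hc, C, hC⟩ := hlow
  obtain ⟨K, hK, m, hb⟩ := hb
  have hint := (H74.integrable_exp_neg_sum_sq (n := n) (half_pos hc)).const_mul
    (K * (m.factorial * (2 / c) ^ m) * Real.exp (c / 2 + C))
  refine hint.mono' (hf.mul hP.neg.rexp).aestronglyMeasurable (Eventually.of_forall fun x => ?_)
  set S : ℝ := ∑ i, x i ^ 2 with hS
  have hS0 : 0 ≤ S := Finset.sum_nonneg fun i _ => sq_nonneg _
  rw [Real.norm_eq_abs, abs_mul, abs_of_pos (Real.exp_pos _)]
  have h1 : (1 + S) ^ m ≤ (m.factorial * (2 / c) ^ m) * Real.exp (c / 2 * (1 + S)) := by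
    have h2 := Real.pow_div_factorial_le_exp (c / 2 * (1 + S)) (by positivity) m
    rw [div_le_iff₀ (by positivity), mul_pow] at h2
    have h3 : (2 / c) ^ m * (c / 2) ^ m = 1 := by
      rw [← mul_pow]; field_simp; simp
    have h4 : (1 + S) ^ m = (2 / c) ^ m * ((c / 2) ^ m * (1 + S) ^ m) := by
      rw [← mul_assoc, h3, one_mul]
    rw [h4]
    calc (2 / c) ^ m * ((c / 2) ^ m * (1 + S) ^ m)
        ≤ (2 / c) ^ m * (Real.exp (c / 2 * (1 + S)) * m.factorial) :=
          mul_le_mul_of_nonneg_left h2 (by positivity)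
      _ = _ := by ring
  have h5 : Real.exp (-P x) ≤ Real.exp (C - c * S) := Real.exp_le_exp.2 (by linarith [hC x])
  calc |f x| * Real.exp (-P x) ≤ (K * (1 + S) ^ m) * Real.exp (C - c * S) :=
        mul_le_mul (hb x) h5 (Real.exp_pos _).le (by positivity)
    _ ≤ (K * ((m.factorial * (2 / c) ^ m) * Real.exp (c / 2 * (1 + S)))) *
          Real.exp (C - c * S) := by
        apply mul_le_mul_of_nonneg_right _ (Real.exp_pos _).le
        exact mul_le_mul_of_nonneg_left h1 hK
    _ = K * (m.factorial * (2 / c) ^ m) * Real.exp (c / 2 + C) * Real.exp (-(c / 2 * S)) := by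
        have : Real.exp (c / 2 * (1 + S)) * Real.exp (C - c * S) =
            Real.exp (c / 2 + C) * Real.exp (-(c / 2 * S)) := by
          rw [← Real.exp_add, ← Real.exp_add]; congr 1; ring
        linear_combination (K * (m.factorial * (2 / c) ^ m)) * this

/-! ### derivatives -/

lemma sig_sum (o : Fin d → Fin n) (s : Fin d → ℝ) (F : Fin n → ℝ) :
    ∑ j, sig o s j * F j = ∑ k, s k * F (o k) := by
  unfold sig
  simp only [Finset.sum_mul]
  rw [Finset.sum_comm]
  refine Finset.sum_congr rfl fun k _ => ?_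
  simp [ite_mul]

lemma sig_nonneg {o : Fin d → Fin n} {s : Fin d → ℝ} (hs : ∀ k, 0 ≤ s k) (i : Fin n) :
    0 ≤ sig o s i := by
  unfold sig
  apply Finset.sum_nonneg
  intro k _
  split
  · exact hs k
  · exact le_rfl

variable {A : Fin n → ℝ → ℝ} {σ : Fin n → ℝ}

lemma hasDerivAt_sq_comp {f : ℝ → ℝ} (hf : Differentiable ℝ f) (t : ℝ) :
    HasDerivAt (fun t => f (t ^ 2)) (deriv f (t ^ 2) * (2 * t)) t := by
  have h1 : HasDerivAt (fun x : ℝ => x ^ 2) (2 * t) t := by
    simpa using hasDerivAt_pow 2 t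
  exact (hf (t ^ 2)).hasDerivAt.comp t h1

lemma hasDerivAt_bf (hA : ∀ i, Adm (A i)) (j : Fin n) (t : ℝ) :
    HasDerivAt (bf A σ j) (4 * t * deriv (deriv (A j)) (t ^ 2)) t := by
  unfold bf
  have h1 := hasDerivAt_sq_comp ((H74.Adm.smooth' (hA j)).differentiable (by simp)) t
  refine ((h1.const_mul 2).add_const (σ j)).congr_deriv ?_
  ring

lemma hasDerivAt_xbf (hA : ∀ i, Adm (A i)) (j : Fin n) (t : ℝ) :
    HasDerivAt (fun t => t * bf A σ j t)
      (2 * deriv (A j) (t ^ 2) + 4 * t ^ 2 * deriv (deriv (A j)) (t ^ 2) + σ j) t := by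
  refine ((hasDerivAt_id t).mul (hasDerivAt_bf (σ := σ) hA j t)).congr_deriv ?_
  simp only [id, bf]
  ring

lemma hasDerivAt_x2bf (hA : ∀ i, Adm (A i)) (j : Fin n) (t : ℝ) :
    HasDerivAt (fun t => t ^ 2 * bf A σ j t)
      (2 * t * (2 * deriv (A j) (t ^ 2) + σ j) + 4 * t ^ 3 * deriv (deriv (A j)) (t ^ 2)) t := by
  have h1 : HasDerivAt (fun x : ℝ => x ^ 2) (2 * t) t := by
    simpa using hasDerivAt_pow 2 t
  refine (h1.mul (hasDerivAt_bf (σ := σ) hA j t)).congr_deriv ?_
  simp only [bf]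
  ring

lemma pd2_Psi (hA : ∀ i, Adm (A i)) {ψ : (Fin n → ℝ) → ℝ} (hψ : ContDiff ℝ ∞ ψ) (i j : Fin n)
    (x : Fin n → ℝ) : pd i (pd j (Psi A σ ψ)) x =
      (if i = j then 2 * deriv (A j) (x j ^ 2) + 4 * x j ^ 2 * deriv (deriv (A j)) (x j ^ 2) + σ j
        else 0) + pd i (pd j ψ) x := by
  have e : pd j (Psi A σ ψ) = fun x => (fun t => t * bf A σ j t) (x j) + pd j ψ x := by
    ext y
    exact H74.pd_Psi hA (hψ.differentiable (by simp)) j y
  have hd : Differentiable ℝ (fun t => t * bf A σ j t) := fun t =>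
    (hasDerivAt_xbf (σ := σ) hA j t).differentiableAt
  have hd' : DifferentiableAt ℝ (fun y : Fin n → ℝ => (fun t => t * bf A σ j t) (y j)) x :=
    (hd _).comp x (differentiableAt_apply j x)
  rw [e, pd_add hd' (diffAt (contDiff_pd hψ j) x), pd_coord hd i j x,
    (hasDerivAt_xbf (σ := σ) hA j (x j)).deriv]

/-- pieces of the first time derivative -/
lemma pd_hf {o : Fin d → Fin n} {s β : Fin d → ℝ} {α : ℝ} (hA : ∀ i, Adm (A i))
    {p : (Fin n → ℝ) → ℝ} (hp : ContDiff ℝ ∞ p) (i : Fin n) (x : Fin n → ℝ) :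
    pd i (hf o A s β α p) x = pd i p x -
      α * (2 * x i * (2 * deriv (A i) (x i ^ 2) + sig o s i) +
        4 * x i ^ 3 * deriv (deriv (A i)) (x i ^ 2)) +
      ∑ k, if i = o k then s k * β k * x (o k) else 0 := by
  have hb : ∀ l, Differentiable ℝ (fun t => t ^ 2 * bf A (sig o s) l t) := fun l t =>
    (hasDerivAt_x2bf (σ := sig o s) hA l t).differentiableAt
  have hb' : ∀ l, DifferentiableAt ℝ
      (fun y : Fin n → ℝ => (fun t => t ^ 2 * bf A (sig o s) l t) (y l)) x := fun l =>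
    (hb l _).comp x (differentiableAt_apply l x)
  have hq : ∀ k, Differentiable ℝ (fun t : ℝ => s k * β k * t ^ 2) := fun k =>
    (differentiable_id.pow 2).const_mul _
  have hq' : ∀ k, DifferentiableAt ℝ
      (fun y : Fin n → ℝ => (fun t : ℝ => s k * β k * t ^ 2) (y (o k))) x := fun k =>
    (hq k _).comp x (differentiableAt_apply (o k) x)
  have e : hf o A s β α p = fun x => (p x + (-α) * ∑ l, (fun t => t ^ 2 * bf A (sig o s) l t) (x l))
      + (1 / 2) * ∑ k, (fun t : ℝ => s k * β k * t ^ 2) (x (o k)) := by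
    ext y
    simp only [hf]
    ring
  have d1 : DifferentiableAt ℝ (fun x : Fin n → ℝ => ∑ l, (fun t => t ^ 2 * bf A (sig o s) l t) (x l)) x :=
    DifferentiableAt.fun_sum fun l _ => hb' l
  have d2 : DifferentiableAt ℝ (fun x : Fin n → ℝ => ∑ k, (fun t : ℝ => s k * β k * t ^ 2) (x (o k))) x :=
    DifferentiableAt.fun_sum fun k _ => hq' k
  have d3 : DifferentiableAt ℝ (fun x : Fin n → ℝ =>
      p x + (-α) * ∑ l, (fun t => t ^ 2 * bf A (sig o s) l t) (x l)) x :=
    (diffAt hp x).add (d1.const_mul _)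
  rw [e, pd_add d3 (d2.const_mul _), pd_add (diffAt hp x)
    (d1.const_mul _), pd_const_mul d1, pd_const_mul d2, pd_sum _ (fun l _ => hb' l),
    pd_sum _ (fun k _ => hq' k)]
  have h1 : ∑ l, pd i (fun y : Fin n → ℝ => (fun t => t ^ 2 * bf A (sig o s) l t) (y l)) x =
      2 * x i * (2 * deriv (A i) (x i ^ 2) + sig o s i) +
        4 * x i ^ 3 * deriv (deriv (A i)) (x i ^ 2) := by
    have : ∀ l, pd i (fun y : Fin n → ℝ => (fun t => t ^ 2 * bf A (sig o s) l t) (y l)) x =
        if i = l then 2 * x i * (2 * deriv (A i) (x i ^ 2) + sig o s i) +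
        4 * x i ^ 3 * deriv (deriv (A i)) (x i ^ 2) else 0 := by
      intro l
      rw [pd_coord (hb l) i l x, (hasDerivAt_x2bf (σ := sig o s) hA l (x l)).deriv]
      by_cases h : i = l
      · subst h; simp
      · simp [h]
    simp only [this]
    simp
  have h2 : ∑ k, pd i (fun y : Fin n → ℝ => (fun t : ℝ => s k * β k * t ^ 2) (y (o k))) x =
      2 * ∑ k, if i = o k then s k * β k * x (o k) else 0 := by
    rw [Finset.mul_sum]
    refine Finset.sum_congr rfl fun k _ => ?_
    rw [pd_coord (hq k) i (o k) x]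
    have : deriv (fun t : ℝ => s k * β k * t ^ 2) (x (o k)) = s k * β k * (2 * x (o k)) := by
      have h1 : HasDerivAt (fun x : ℝ => x ^ 2) (2 * x (o k)) (x (o k)) := by
        simpa using hasDerivAt_pow 2 (x (o k))
      exact (h1.const_mul (s k * β k)).deriv
    rw [this]
    split <;> ring
  rw [h1, h2]
  ring

lemma trace_eq {b : Fin n → ℝ → ℝ} {u : (Fin n → ℝ) → ℝ} (hb : ∀ i, ContDiff ℝ ∞ (b i))
    (hpos : ∀ i x, 0 < b i x) (hu : ContDiff ℝ ∞ u) (x : Fin n → ℝ) :
    ∑ i, ∑ j, pd i (fld b u j) x * pd j (fld b u i) x =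
      ∑ j, b j (x j) * ∑ l, pd l (fld b u j) x ^ 2 / b l (x l) := by
  rw [Finset.sum_comm]
  refine Finset.sum_congr rfl fun j _ => ?_
  rw [Finset.mul_sum]
  refine Finset.sum_congr rfl fun i _ => ?_
  have hi := (hpos i (x i)).ne'
  have hj := (hpos j (x j)).ne'
  by_cases hij : i = j
  · subst hij
    field_simp
  · rw [H50.pd_fld_ne hb hpos hu hij, H50.pd_fld_ne hb hpos hu (Ne.symm hij), pd_symm hu j i x]
    field_simp

/-- the integrand of `JA` -/
noncomputable def jaI (A : Fin n → ℝ → ℝ) (σ : Fin n → ℝ) (α : ℝ) (X : (Fin n → ℝ) → ℝ) (j : Fin n)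
    (x : Fin n → ℝ) : ℝ :=
  2 * deriv (A j) (x j ^ 2) * (∑ l, pd l X x ^ 2 / bf A σ l (x l)) +
        (2 * deriv (A j) (x j ^ 2) + 4 * x j ^ 2 * deriv (deriv (A j)) (x j ^ 2)) *
          (X x - α * x j) ^ 2 -
        4 * α * x j * deriv (A j) (x j ^ 2) * (X x - α * x j)

/-- the Brascamp-Lieb integrand -/
noncomputable def blI (A : Fin n → ℝ → ℝ) (σ : Fin n → ℝ) (X : (Fin n → ℝ) → ℝ)
    (x : Fin n → ℝ) : ℝ :=
  (∑ l, pd l X x ^ 2 / bf A σ l (x l)) - X x ^ 2

lemma pointwise {o : Fin d → Fin n} {s β : Fin d → ℝ} {α : ℝ} (hA : ∀ i, Adm (A i))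
    (hs : ∀ k, 0 ≤ s k) {ψ p q u : (Fin n → ℝ) → ℝ} (hψ : ContDiff ℝ ∞ ψ) (hp : ContDiff ℝ ∞ p)
    (hu : ContDiff ℝ ∞ u)
    (hH : ∀ x ξ : Fin n → ℝ, 0 ≤ (∑ i, ∑ j, pd i (pd j ψ) x * ξ i * ξ j) +
      2 * (∑ i, ξ i * pd i p x) + q x) (x : Fin n → ℝ) :
    (∑ j, jaI A (sig o s) α (fld (bf A (sig o s)) u j) j x) +
      (∑ k, s k * blI A (sig o s) (fld (bf A (sig o s)) u (o k)) x) ≤
    ff o A s β α q x + 2 * (∑ i, fld (bf A (sig o s)) u i x * pd i (hf o A s β α p) x) +
      ((∑ i, ∑ j, pd i (fld (bf A (sig o s)) u j) x * pd j (fld (bf A (sig o s)) u i) x) +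
        ∑ i, ∑ j, pd i (pd j (Psi A (sig o s) ψ)) x * fld (bf A (sig o s)) u i x *
          fld (bf A (sig o s)) u j x) := by
  set σ := sig o s with hσdef
  set X : Fin n → (Fin n → ℝ) → ℝ := fld (bf A σ) u with hX
  have hσ : ∀ i, 0 ≤ σ i := fun i => sig_nonneg hs i
  have hb : ∀ i, ContDiff ℝ ∞ (bf A σ i) := fun i => H74.contDiff_bf hA i
  have hpos : ∀ i x, 0 < bf A σ i x := H74.bf_pos hA hσ
  have h0 := hH x (fun i => X i x)
  have htr := trace_eq hb hpos hu x
  rw [← hX] at htr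
  rw [htr]
  have e1 : ∑ i, X i x * pd i (hf o A s β α p) x =
      (∑ i, X i x * pd i p x) - α * (∑ i, X i x * (2 * x i * (2 * deriv (A i) (x i ^ 2) + σ i) +
        4 * x i ^ 3 * deriv (deriv (A i)) (x i ^ 2))) +
      ∑ k, X (o k) x * (s k * β k * x (o k)) := by
    have e : ∀ i, X i x * pd i (hf o A s β α p) x = X i x * pd i p x -
        α * (X i x * (2 * x i * (2 * deriv (A i) (x i ^ 2) + σ i) +
          4 * x i ^ 3 * deriv (deriv (A i)) (x i ^ 2))) +
        ∑ k, if i = o k then X i x * (s k * β k * x (o k)) else 0 := by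
      intro i
      rw [pd_hf hA hp i x, ← hσdef, mul_add, mul_sub, Finset.mul_sum]
      congr 1
      · ring
      · refine Finset.sum_congr rfl fun k _ => ?_
        split <;> simp
    rw [Finset.sum_congr rfl fun i _ => e i, Finset.sum_add_distrib, Finset.sum_sub_distrib,
      ← Finset.mul_sum]
    congr 1
    rw [Finset.sum_comm]
    refine Finset.sum_congr rfl fun k _ => ?_
    simp
  have e2 : ∑ i, ∑ j, pd i (pd j (Psi A σ ψ)) x * X i x * X j x =
      (∑ j, (2 * deriv (A j) (x j ^ 2) + 4 * x j ^ 2 * deriv (deriv (A j)) (x j ^ 2) + σ j) *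
        X j x ^ 2) + ∑ i, ∑ j, pd i (pd j ψ) x * X i x * X j x := by
    have e : ∀ i j, pd i (pd j (Psi A σ ψ)) x * X i x * X j x =
        (if i = j then (2 * deriv (A j) (x j ^ 2) + 4 * x j ^ 2 * deriv (deriv (A j)) (x j ^ 2) +
          σ j) * X j x ^ 2 else 0) + pd i (pd j ψ) x * X i x * X j x := by
      intro i j
      rw [pd2_Psi hA hψ]
      by_cases h : i = j
      · subst h; simp only [if_true]; ring
      · simp only [h, if_false]; ring
    simp only [e, Finset.sum_add_distrib]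
    congr 1
    simp
  rw [e1, e2]
  -- the sum over the coordinates
  have e3 : ∀ j, jaI A σ α (X j) j x + σ j * ((∑ l, pd l (X j) x ^ 2 / bf A σ l (x l)) +
      X j x ^ 2 - 4 * α * x j * X j x) =
      α ^ 2 * (6 * deriv (A j) (x j ^ 2) * x j ^ 2 +
        4 * deriv (deriv (A j)) (x j ^ 2) * x j ^ 4) -
      2 * (α * (X j x * (2 * x j * (2 * deriv (A j) (x j ^ 2) + σ j) +
        4 * x j ^ 3 * deriv (deriv (A j)) (x j ^ 2)))) +
      (2 * deriv (A j) (x j ^ 2) + 4 * x j ^ 2 * deriv (deriv (A j)) (x j ^ 2) + σ j) *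
        X j x ^ 2 + bf A σ j (x j) * ∑ l, pd l (X j) x ^ 2 / bf A σ l (x l) := by
    intro j
    simp only [jaI]
    have : bf A σ j (x j) = 2 * deriv (A j) (x j ^ 2) + σ j := rfl
    rw [this]
    ring
  have e4 : (∑ j, jaI A σ α (X j) j x) + ∑ j, σ j * ((∑ l, pd l (X j) x ^ 2 / bf A σ l (x l)) +
      X j x ^ 2 - 4 * α * x j * X j x) =
      α ^ 2 * (∑ j, (6 * deriv (A j) (x j ^ 2) * x j ^ 2 +
        4 * deriv (deriv (A j)) (x j ^ 2) * x j ^ 4)) -
      2 * (α * ∑ j, (X j x * (2 * x j * (2 * deriv (A j) (x j ^ 2) + σ j) +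
        4 * x j ^ 3 * deriv (deriv (A j)) (x j ^ 2)))) +
      (∑ j, (2 * deriv (A j) (x j ^ 2) + 4 * x j ^ 2 * deriv (deriv (A j)) (x j ^ 2) + σ j) *
        X j x ^ 2) + ∑ j, bf A σ j (x j) * ∑ l, pd l (X j) x ^ 2 / bf A σ l (x l) := by
    rw [← Finset.sum_add_distrib, Finset.sum_congr rfl fun j _ => e3 j, Finset.sum_add_distrib,
      Finset.sum_add_distrib, Finset.sum_sub_distrib, ← Finset.mul_sum, ← Finset.mul_sum,
      ← Finset.mul_sum]
  have e5 : ∑ j, σ j * ((∑ l, pd l (X j) x ^ 2 / bf A σ l (x l)) +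
      X j x ^ 2 - 4 * α * x j * X j x) =
      ∑ k, s k * ((∑ l, pd l (X (o k)) x ^ 2 / bf A σ l (x l)) +
      X (o k) x ^ 2 - 4 * α * x (o k) * X (o k) x) :=
    sig_sum o s (fun j => (∑ l, pd l (X j) x ^ 2 / bf A σ l (x l)) +
      X j x ^ 2 - 4 * α * x j * X j x)
  have e6 : ∑ k, s k * ((∑ l, pd l (X (o k)) x ^ 2 / bf A σ l (x l)) +
      X (o k) x ^ 2 - 4 * α * x (o k) * X (o k) x) +
      ((∑ k, s k * (3 * α ^ 2 - 2 * α * β k + β k ^ 2 / 2) * x (o k) ^ 2) +
        2 * ∑ k, X (o k) x * (s k * β k * x (o k))) =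
      (∑ k, s k * blI A σ (X (o k)) x) + ∑ k, s k * (α ^ 2 * x (o k) ^ 2 +
        (β k * x (o k) + 2 * (X (o k) x - α * x (o k))) ^ 2 / 2) := by
    rw [Finset.mul_sum, ← Finset.sum_add_distrib, ← Finset.sum_add_distrib,
      ← Finset.sum_add_distrib]
    refine Finset.sum_congr rfl fun k _ => ?_
    simp only [blI]
    ring
  have e7 : 0 ≤ ∑ k, s k * (α ^ 2 * x (o k) ^ 2 +
        (β k * x (o k) + 2 * (X (o k) x - α * x (o k))) ^ 2 / 2) := by
    apply Finset.sum_nonneg
    intro k _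
    apply mul_nonneg (hs k)
    positivity
  unfold ff
  linarith

lemma gr_deriv (hA : ∀ i, Adm (A i)) (j : Fin n) :
    Gr (fun x : Fin n → ℝ => deriv (A j) (x j ^ 2)) := by
  obtain ⟨C, hC⟩ := (hA j).up
  obtain ⟨δ, hδ, h⟩ := (hA j).lo
  apply Gr.bdd (C := C)
  intro x
  rw [abs_of_nonneg (hδ.le.trans (h _ (sq_nonneg _)))]
  exact hC _ (sq_nonneg _)

lemma gr_deriv2 (hA : ∀ i, Adm (A i)) (j : Fin n) :
    Gr (fun x : Fin n → ℝ => deriv (deriv (A j)) (x j ^ 2)) := by
  obtain ⟨C, hC⟩ := (hA j).up2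
  apply Gr.bdd (C := C)
  intro x
  rw [abs_of_nonneg ((hA j).lo2 _ (sq_nonneg _))]
  exact hC _ (sq_nonneg _)

lemma cont_deriv (hA : ∀ i, Adm (A i)) (j : Fin n) :
    Continuous (fun x : Fin n → ℝ => deriv (A j) (x j ^ 2)) :=
  (H74.Adm.smooth' (hA j)).continuous.comp ((continuous_apply j).pow 2)

lemma cont_deriv2 (hA : ∀ i, Adm (A i)) (j : Fin n) :
    Continuous (fun x : Fin n → ℝ => deriv (deriv (A j)) (x j ^ 2)) :=
  (H74.Adm.smooth'' (hA j)).continuous.comp ((continuous_apply j).pow 2)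

lemma gr_bf (hA : ∀ i, Adm (A i)) (j : Fin n) :
    Gr (fun x : Fin n → ℝ => bf A σ j (x j)) := by
  unfold bf
  exact ((Gr.const 2).mul (gr_deriv hA j)).add (Gr.const _)

lemma gr_hf {o : Fin d → Fin n} {s β : Fin d → ℝ} {α : ℝ} (hA : ∀ i, Adm (A i))
    {p : (Fin n → ℝ) → ℝ} (hp : ∃ C : ℝ, ∀ x, |p x| ≤ C) : Gr (hf o A s β α p) := by
  obtain ⟨C, hC⟩ := hp
  have h1 : Gr (fun x : Fin n → ℝ => ∑ i, x i ^ 2 * bf A (sig o s) i (x i)) :=
    Gr.sum _ fun i _ => ((Gr.coord i).pow 2).mul (gr_bf hA i)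
  have h2 : Gr (fun x : Fin n → ℝ => ∑ k, s k * β k * x (o k) ^ 2) :=
    Gr.sum _ fun k _ => (Gr.const _).mul ((Gr.coord (o k)).pow 2)
  have h3 := ((Gr.bdd hC).add ((Gr.const (-α)).mul h1)).add ((Gr.const (1 / 2)).mul h2)
  have e : hf o A s β α p = fun x => (p x + (-α) * ∑ i, x i ^ 2 *
      bf A (sig o s) i (x i)) +
      1 / 2 * ∑ k, s k * β k * x (o k) ^ 2 := by
    ext x
    simp only [hf]
    ring
  rw [e]
  exact h3

lemma gr_ff {o : Fin d → Fin n} {s β : Fin d → ℝ} {α : ℝ} (hA : ∀ i, Adm (A i))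
    {q : (Fin n → ℝ) → ℝ} (hq : ∃ C : ℝ, ∀ x, |q x| ≤ C) : Gr (ff o A s β α q) := by
  obtain ⟨C, hC⟩ := hq
  have h1 : Gr (fun x : Fin n → ℝ => ∑ i, (6 * deriv (A i) (x i ^ 2) * x i ^ 2 +
      4 * deriv (deriv (A i)) (x i ^ 2) * x i ^ 4)) :=
    Gr.sum _ fun i _ => (((Gr.const 6).mul (gr_deriv hA i)).mul ((Gr.coord i).pow 2)).add
      (((Gr.const 4).mul (gr_deriv2 hA i)).mul ((Gr.coord i).pow 4))
  have h2 : Gr (fun x : Fin n → ℝ => ∑ k, s k * (3 * α ^ 2 - 2 * α * β k + β k ^ 2 / 2) *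
      x (o k) ^ 2) := Gr.sum _ fun k _ => (Gr.const _).mul ((Gr.coord (o k)).pow 2)
  exact ((Gr.bdd hC).add ((Gr.const (α ^ 2)).mul h1)).add h2

lemma contDiff_hf {o : Fin d → Fin n} {s β : Fin d → ℝ} {α : ℝ} (hA : ∀ i, Adm (A i))
    {p : (Fin n → ℝ) → ℝ} (hp : ContDiff ℝ ∞ p) : ContDiff ℝ ∞ (hf o A s β α p) := by
  unfold hf
  refine (hp.sub (contDiff_const.mul (ContDiff.sum fun i _ => ?_))).add
    ((ContDiff.sum fun k _ => ?_).div_const _)
  · exact ((contDiff_apply ℝ ℝ i).pow 2).mul (contDiff_coord (H74.contDiff_bf hA i) i)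
  · exact contDiff_const.mul ((contDiff_apply ℝ ℝ (o k)).pow 2)

lemma continuous_ff {o : Fin d → Fin n} {s β : Fin d → ℝ} {α : ℝ} (hA : ∀ i, Adm (A i))
    {q : (Fin n → ℝ) → ℝ} (hq : Continuous q) : Continuous (ff o A s β α q) := by
  unfold ff
  refine (hq.add (continuous_const.mul (continuous_finsetSum _ fun i _ => ?_))).add
    (continuous_finsetSum _ fun k _ => ?_)
  · exact ((continuous_const.mul (cont_deriv hA i)).mul ((continuous_apply i).pow 2)).add
      ((continuous_const.mul (cont_deriv2 hA i)).mul ((continuous_apply i).pow 4))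
  · exact continuous_const.mul ((continuous_apply (o k)).pow 2)

lemma bf_even (i : Fin n) (t : ℝ) : bf A σ i (-t) = bf A σ i t := by
  unfold bf
  rw [neg_sq]

lemma hf_even {o : Fin d → Fin n} {s β : Fin d → ℝ} {α : ℝ}
    {p : (Fin n → ℝ) → ℝ} (hp : ∀ x, p (-x) = p x) (x : Fin n → ℝ) :
    hf o A s β α p (-x) = hf o A s β α p x := by
  unfold hf
  simp only [hp, Pi.neg_apply, neg_sq, bf_even]

lemma Psi_even {ψ : (Fin n → ℝ) → ℝ} (hψ : ∀ x, ψ (-x) = ψ x) (x : Fin n → ℝ) :
    Psi A σ ψ (-x) = Psi A σ ψ x := by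
  unfold Psi Uf
  simp only [hψ, Pi.neg_apply, neg_sq]

lemma quad_nonneg {Q L q : ℝ} (h : ∀ t : ℝ, 0 ≤ t ^ 2 * Q + 2 * (t * L) + q) : 0 ≤ Q := by
  by_contra hQ
  push Not at hQ
  have h1 := h ((|L| + |q| + 1) / (-Q) * 2 + 1)
  set w := (|L| + |q| + 1) / (-Q) * 2 + 1 with hw
  have hw1 : 1 ≤ w := by
    have : 0 ≤ (|L| + |q| + 1) / (-Q) * 2 := by
      apply mul_nonneg _ (by norm_num)
      apply div_nonneg
      · positivity
      · linarith
    linarith
  have hwQ : w * (-Q) ≥ 2 * (|L| + |q| + 1) := by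
    have : (|L| + |q| + 1) / (-Q) * (-Q) = |L| + |q| + 1 := div_mul_cancel₀ _ (by linarith)
    rw [hw]
    nlinarith
  have hL := le_abs_self L
  have hq := le_abs_self q
  have hL0 := abs_nonneg L
  have hq0 := abs_nonneg q
  nlinarith [mul_le_mul_of_nonneg_left hwQ (by linarith : (0 : ℝ) ≤ w), mul_nonneg (by linarith : (0:ℝ) ≤ w) hq0, mul_le_mul_of_nonneg_left hL (by linarith : (0 : ℝ) ≤ w), mul_le_mul_of_nonneg_right hw1 hq0]

/-- M7 -/
theorem static (hD : DensMEven) (hI : IBP) (hB : Boch) (hL : BL) (hJ : JA) : Static := by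
  intro n d o A s β α ψ p q hA hs hψ hψe hψc hψ1 hp hpe hpb hq hqb hH
  set σ := sig o s with hσdef
  have hσ : ∀ i, 0 ≤ σ i := fun i => sig_nonneg hs i
  set Ψ := Psi A σ ψ with hΨdef
  have hΨ : ContDiff ℝ ∞ Ψ := H74.contDiff_Psi hA le_rfl hψ
  have hΨe : ∀ x, Ψ (-x) = Ψ x := Psi_even hψe
  have hψ0 : ∀ x, ψ 0 ≤ ψ x := H74.even_convex_ge hψc hψe
  have hlow : ∃ c : ℝ, 0 < c ∧ ∃ C : ℝ, ∀ x, c * ∑ i, x i ^ 2 - C ≤ Ψ x :=
    H74.Psi_lower hA hσ hψ0
  have hint : Integrable (fun x => Real.exp (-Ψ x)) := H74.integrable_exp_neg hΨ.continuous hlow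
  have hG : ∀ {f : (Fin n → ℝ) → ℝ}, Continuous f → Gr f →
      Integrable (fun x => f x * Real.exp (-Ψ x)) := fun hf hg =>
    Gr.integrable hΨ.continuous hlow hf hg
  set h := hf o A s β α p with hhdef
  have hh : ContDiff ℝ ∞ h := contDiff_hf hA hp
  have hhg : Gr h := gr_hf hA hpb
  have hhe : ∀ x, h (-x) = h x := hf_even hpe
  set f := ff o A s β α q with hfdef
  have hfc : Continuous f := continuous_ff hA hq
  have hfg : Gr f := gr_ff hA hqb
  set m0 := ∫ x, Real.exp (-Ψ x) with hm0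
  have hm0pos : 0 < m0 := integral_exp_pos hint
  set m1 := ∫ x, h x * Real.exp (-Ψ x) with hm1
  set m2 := ∫ x, h x ^ 2 * Real.exp (-Ψ x) with hm2
  set mf := ∫ x, f x * Real.exp (-Ψ x) with hmf
  have ih1 : Integrable (fun x => h x * Real.exp (-Ψ x)) := hG hh.continuous hhg
  have ih2 : Integrable (fun x => h x ^ 2 * Real.exp (-Ψ x)) := hG (hh.continuous.pow 2) (hhg.pow 2)
  have ihf : Integrable (fun x => f x * Real.exp (-Ψ x)) := hG hfc hfg
  set c := m1 / m0 with hc
  have hcm : c * m0 = m1 := div_mul_cancel₀ _ hm0pos.ne'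
  -- the centred function
  set h' : (Fin n → ℝ) → ℝ := fun x => h x - c with hh'def
  have hh' : ContDiff ℝ ∞ h' := hh.sub contDiff_const
  have hh'g : Gr h' := by
    have h1 := hhg.add (Gr.const (n := n) (-c))
    have e : h' = fun x => h x + -c := by
      ext x; simp only [hh'def]; ring
    rw [e]; exact h1
  have hh'e : ∀ x, h' (-x) = h' x := fun x => by simp only [hh'def, hhe]
  have ih'2 : Integrable (fun x => h' x ^ 2 * Real.exp (-Ψ x)) :=
    hG (hh'.continuous.pow 2) (hh'g.pow 2)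
  have hmean : ∫ x, h' x * Real.exp (-Ψ x) = 0 := by
    have : ∫ x, h' x * Real.exp (-Ψ x) = ∫ x, (h x * Real.exp (-Ψ x) - c * Real.exp (-Ψ x)) := by
      apply integral_congr_ae
      filter_upwards with x
      simp only [hh'def]; ring
    rw [this, integral_sub ih1 (hint.const_mul _), integral_const_mul, ← hm0, ← hm1, hcm]
    ring
  have hvar : ∫ x, h' x ^ 2 * Real.exp (-Ψ x) = m2 - m1 * c := by
    have : ∫ x, h' x ^ 2 * Real.exp (-Ψ x) = ∫ x, ((h x ^ 2 * Real.exp (-Ψ x) -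
        (2 * c) * (h x * Real.exp (-Ψ x))) + c ^ 2 * Real.exp (-Ψ x)) := by
      apply integral_congr_ae
      filter_upwards with x
      simp only [hh'def]; ring
    have i1 : Integrable (fun x => h x ^ 2 * Real.exp (-Ψ x) -
        (2 * c) * (h x * Real.exp (-Ψ x))) := ih2.sub (ih1.const_mul _)
    rw [this, integral_add i1 (hint.const_mul _), integral_sub ih2 (ih1.const_mul _),
      integral_const_mul, integral_const_mul, ← hm0, ← hm1, ← hm2]
    have : c ^ 2 * m0 = c * m1 := by rw [← hcm]; ring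
    rw [this]; ring
  have hb : ∀ i, ContDiff ℝ ∞ (bf A σ i) := fun i => H74.contDiff_bf hA i
  have hpos : ∀ i x, 0 < bf A σ i x := H74.bf_pos hA hσ
  have hδ := H74.bf_lower hA hσ
  have hcs : ∀ {g : (Fin n → ℝ) → ℝ}, Continuous g → HasCompactSupport g →
      Integrable (fun x => g x * Real.exp (-Ψ x)) := fun hg hs =>
    (hg.mul hΨ.continuous.neg.rexp).integrable_of_hasCompactSupport hs.mul_right
  -- main claim
  have key : m2 - m1 * c ≤ mf := by
    apply le_of_forall_pos_le_add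
    intro ε hε
    obtain ⟨u, hu, hus, hue, hule⟩ := hD n Ψ h' (bf A σ) hΨ hb hδ hΨe hh'e
      (fun i x => bf_even i x) hint hh'.continuous ih'2 hmean ε hε
    set X : Fin n → (Fin n → ℝ) → ℝ := fld (bf A σ) u with hX
    have hXc : ∀ i, ContDiff ℝ ∞ (X i) := fun i => H50.contDiff_fld hb hpos hu i
    have hXs : ∀ i, HasCompactSupport (X i) := fun i => H50.supp_fld hus i
    have hXo : ∀ i x, X i (-x) = - X i x := by
      intro i x
      have hb' : bf A σ i ((-x) i) = bf A σ i (x i) := by rw [Pi.neg_apply, bf_even]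
      have h1 : pd i u (-x) = - pd i u x := by
        have h2 := pd_comp_neg u i x
        rw [pd_congr (fun y => hue y) i x] at h2
        linarith
      simp only [hX, fld, h1, hb', neg_div]
    set L : (Fin n → ℝ) → ℝ := dv Ψ X with hLdef
    have hLc : ContDiff ℝ ∞ L := H50.contDiff_dv hΨ hXc
    have hLs : HasCompactSupport L := H50.supp_dv hXs
    have hibp := hI n Ψ h' X (contDiff_one hΨ) (contDiff_one hh') (fun i => contDiff_one (hXc i)) hXs
    have hboch := hB n Ψ X hΨ hXc hXs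
    have i1 : Integrable (fun x => h' x * L x * Real.exp (-Ψ x)) :=
      hcs (hh'.continuous.mul hLc.continuous) hLs.mul_left
    have hL2s : HasCompactSupport (fun x => L x ^ 2) := by
      have : (fun x => L x ^ 2) = fun x => L x * L x := by funext x; ring
      rw [this]
      exact hLs.mul_right
    have i2 : Integrable (fun x => L x ^ 2 * Real.exp (-Ψ x)) := hcs (hLc.continuous.pow 2) hL2s
    have hLg : Gr (fun x => (L x - h' x) ^ 2) := by
      have h1 := (Gr.compact hLc.continuous hLs).add ((Gr.const (-1)).mul hh'g)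
      have h2 := h1.pow 2
      have e : (fun x => (L x - h' x) ^ 2) = fun x => (L x + -1 * h' x) ^ 2 := by
        ext x; ring
      rw [e]; exact h2
    have i3 : Integrable (fun x => (L x - h' x) ^ 2 * Real.exp (-Ψ x)) :=
      hG ((hLc.continuous.sub hh'.continuous).pow 2) hLg
    have hid : ∫ x, h' x ^ 2 * Real.exp (-Ψ x) =
        2 * (∫ x, h' x * L x * Real.exp (-Ψ x)) - (∫ x, L x ^ 2 * Real.exp (-Ψ x)) +
          ∫ x, (L x - h' x) ^ 2 * Real.exp (-Ψ x) := by
      have i12 : Integrable (fun x => 2 * (h' x * L x * Real.exp (-Ψ x)) -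
          L x ^ 2 * Real.exp (-Ψ x)) := (i1.const_mul 2).sub i2
      rw [← integral_const_mul, ← integral_sub (i1.const_mul 2) i2, ← integral_add i12 i3]
      apply integral_congr_ae
      filter_upwards with x
      ring
    have hpd' : ∀ i x, pd i h' x = pd i h x := by
      intro i x
      simp only [hh'def]
      rw [pd_sub (diffAt hh x) (differentiableAt_const c), pd_const]
      ring
    -- the terms of the final integrand
    have cX : Continuous (fun x => ∑ i, X i x * pd i h x) :=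
      continuous_finsetSum _ (fun i _ => (hXc i).continuous.mul (contDiff_pd hh i).continuous)
    have sX : HasCompactSupport (fun x => ∑ i, X i x * pd i h x) :=
      H50.hasCompactSupport_sum' _ _ (fun i _ => (hXs i).mul_right)
    have iX := hcs cX sX
    have cT : Continuous (fun x => (∑ i, ∑ j, pd i (X j) x * pd j (X i) x) +
        ∑ i, ∑ j, pd i (pd j Ψ) x * X i x * X j x) := by
      apply Continuous.add
      · refine continuous_finsetSum _ (fun i _ => continuous_finsetSum _ (fun j _ => ?_))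
        exact (contDiff_pd (hXc j) i).continuous.mul (contDiff_pd (hXc i) j).continuous
      · refine continuous_finsetSum _ (fun i _ => continuous_finsetSum _ (fun j _ => ?_))
        exact ((contDiff_pd (contDiff_pd hΨ j) i).continuous.mul (hXc i).continuous).mul
          (hXc j).continuous
    have sT : HasCompactSupport (fun x => (∑ i, ∑ j, pd i (X j) x * pd j (X i) x) +
        ∑ i, ∑ j, pd i (pd j Ψ) x * X i x * X j x) := by
      apply HasCompactSupport.add
      · exact H50.hasCompactSupport_sum' _ _ (fun i _ => H50.hasCompactSupport_sum' _ _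
          (fun j _ => (hasCompactSupport_pd (hXs j) i).mul_right))
      · refine H50.hasCompactSupport_sum' _ _ (fun i _ => H50.hasCompactSupport_sum' _ _
          (fun j _ => ?_))
        exact (hXs j).mul_left
    have iT := hcs cT sT
    -- the lower bound
    have ijaI : ∀ j, Integrable (fun x => jaI A σ α (X j) j x * Real.exp (-Ψ x)) := by
      intro j
      have hpdX : ∀ l, Continuous (pd l (X j)) := fun l => (contDiff_pd (hXc j) l).continuous
      have hbc : ∀ l, Continuous (fun x : Fin n → ℝ => bf A σ l (x l)) := fun l =>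
        (hb l).continuous.comp (continuous_apply l)
      have cs : Continuous (fun x : Fin n → ℝ => ∑ l, pd l (X j) x ^ 2 / bf A σ l (x l)) :=
        continuous_finsetSum _ fun l _ => ((hpdX l).pow 2).div (hbc l) fun x => (hpos l _).ne'
      have ss : HasCompactSupport (fun x : Fin n → ℝ => ∑ l, pd l (X j) x ^ 2 / bf A σ l (x l)) := by
        apply H50.hasCompactSupport_sum'
        intro l _
        have e : (fun x : Fin n → ℝ => pd l (X j) x ^ 2 / bf A σ l (x l)) =
            fun x => pd l (X j) x * (pd l (X j) x / bf A σ l (x l)) := by ext x; ring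
        rw [e]
        exact (hasCompactSupport_pd (hXs j) l).mul_right
      apply hG
      · unfold jaI
        refine Continuous.sub (Continuous.add ?_ ?_) ?_
        · exact (continuous_const.mul (cont_deriv hA j)).mul cs
        · exact ((continuous_const.mul (cont_deriv hA j)).add
            ((continuous_const.mul ((continuous_apply j).pow 2)).mul (cont_deriv2 hA j))).mul
            (((hXc j).continuous.sub (continuous_const.mul (continuous_apply j))).pow 2)
        · exact ((continuous_const.mul (continuous_apply j)).mul (cont_deriv hA j)).mul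
            ((hXc j).continuous.sub (continuous_const.mul (continuous_apply j)))
      · have g1 := ((Gr.const (n := n) 2).mul (gr_deriv hA j)).mul (Gr.compact cs ss)
        have gv := (Gr.compact (hXc j).continuous (hXs j)).add
          ((Gr.const (n := n) (-α)).mul (Gr.coord j))
        have g2 := (((Gr.const (n := n) 2).mul (gr_deriv hA j)).add
          (((Gr.const (n := n) 4).mul ((Gr.coord j).pow 2)).mul (gr_deriv2 hA j))).mul (gv.pow 2)
        have g3 := (((Gr.const (n := n) (-(4 * α))).mul (Gr.coord j)).mul (gr_deriv hA j)).mul gv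
        have g4 := (g1.add g2).add g3
        have e : jaI A σ α (X j) j = fun x => (2 * deriv (A j) (x j ^ 2) *
            (∑ l, pd l (X j) x ^ 2 / bf A σ l (x l)) + (2 * deriv (A j) (x j ^ 2) +
            4 * x j ^ 2 * deriv (deriv (A j)) (x j ^ 2)) * (X j x + -α * x j) ^ 2) +
            -(4 * α) * x j * deriv (A j) (x j ^ 2) * (X j x + -α * x j) := by
          ext x
          simp only [jaI]
          ring
        rw [e]
        exact g4
    have iblI : ∀ j, Integrable (fun x => blI A σ (X j) x * Real.exp (-Ψ x)) ∧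
        Integrable (fun x => (∑ l, pd l (X j) x ^ 2 / bf A σ l (x l)) * Real.exp (-Ψ x)) ∧
        Integrable (fun x => X j x ^ 2 * Real.exp (-Ψ x)) := by
      intro j
      have hpdX : ∀ l, Continuous (pd l (X j)) := fun l => (contDiff_pd (hXc j) l).continuous
      have hbc : ∀ l, Continuous (fun x : Fin n → ℝ => bf A σ l (x l)) := fun l =>
        (hb l).continuous.comp (continuous_apply l)
      have cs : Continuous (fun x : Fin n → ℝ => ∑ l, pd l (X j) x ^ 2 / bf A σ l (x l)) :=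
        continuous_finsetSum _ fun l _ => ((hpdX l).pow 2).div (hbc l) fun x => (hpos l _).ne'
      have ss : HasCompactSupport (fun x : Fin n → ℝ => ∑ l, pd l (X j) x ^ 2 / bf A σ l (x l)) := by
        apply H50.hasCompactSupport_sum'
        intro l _
        have e : (fun x : Fin n → ℝ => pd l (X j) x ^ 2 / bf A σ l (x l)) =
            fun x => pd l (X j) x * (pd l (X j) x / bf A σ l (x l)) := by ext x; ring
        rw [e]
        exact (hasCompactSupport_pd (hXs j) l).mul_right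
      have sx : HasCompactSupport (fun x => X j x ^ 2) := by
        have e : (fun x => X j x ^ 2) = fun x => X j x * X j x := by ext x; ring
        rw [e]; exact (hXs j).mul_right
      have j1 := hcs cs ss
      have j2 := hcs ((hXc j).continuous.pow 2) sx
      refine ⟨?_, j1, j2⟩
      have e : (fun x => blI A σ (X j) x * Real.exp (-Ψ x)) = fun x =>
          (∑ l, pd l (X j) x ^ 2 / bf A σ l (x l)) * Real.exp (-Ψ x) -
            X j x ^ 2 * Real.exp (-Ψ x) := by
        ext x; simp only [blI]; ring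
      rw [e]
      exact j1.sub j2
    have hja : ∀ j, 0 ≤ ∫ x, jaI A σ α (X j) j x * Real.exp (-Ψ x) := fun j =>
      hJ n A σ ψ (X j) j α hA hσ hψ hψe hψc hψ1 (hXc j) (hXs j)
    have hhess : ∀ x ξ : Fin n → ℝ, ∑ i, bf A σ i (x i) * ξ i ^ 2 ≤
        ∑ i, ∑ j, pd i (pd j Ψ) x * ξ i * ξ j := by
      intro x ξ
      have hQ : 0 ≤ ∑ i, ∑ j, pd i (pd j ψ) x * ξ i * ξ j := by
        apply quad_nonneg (L := ∑ i, ξ i * pd i p x) (q := q x)
        intro t
        have h1 := hH x (fun i => t * ξ i)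
        have e1 : ∑ i, ∑ j, pd i (pd j ψ) x * (t * ξ i) * (t * ξ j) =
            t ^ 2 * ∑ i, ∑ j, pd i (pd j ψ) x * ξ i * ξ j := by
          rw [Finset.mul_sum]
          refine Finset.sum_congr rfl fun i _ => ?_
          rw [Finset.mul_sum]
          refine Finset.sum_congr rfl fun j _ => ?_
          ring
        have e2 : ∑ i, t * ξ i * pd i p x = t * ∑ i, ξ i * pd i p x := by
          rw [Finset.mul_sum]
          refine Finset.sum_congr rfl fun i _ => ?_
          ring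
        rw [e1, e2] at h1
        exact h1
      have e : ∑ i, ∑ j, pd i (pd j Ψ) x * ξ i * ξ j =
          (∑ j, (2 * deriv (A j) (x j ^ 2) + 4 * x j ^ 2 * deriv (deriv (A j)) (x j ^ 2) + σ j) *
            ξ j ^ 2) + ∑ i, ∑ j, pd i (pd j ψ) x * ξ i * ξ j := by
        have e : ∀ i j, pd i (pd j Ψ) x * ξ i * ξ j =
            (if i = j then (2 * deriv (A j) (x j ^ 2) + 4 * x j ^ 2 * deriv (deriv (A j)) (x j ^ 2) +
              σ j) * ξ j ^ 2 else 0) + pd i (pd j ψ) x * ξ i * ξ j := by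
          intro i j
          rw [hΨdef, pd2_Psi hA hψ]
          by_cases h : i = j
          · subst h; simp only [if_true]; ring
          · simp only [h, if_false]; ring
        simp only [e, Finset.sum_add_distrib]
        congr 1
        simp
      rw [e]
      have : ∑ i, bf A σ i (x i) * ξ i ^ 2 ≤ ∑ j, (2 * deriv (A j) (x j ^ 2) +
          4 * x j ^ 2 * deriv (deriv (A j)) (x j ^ 2) + σ j) * ξ j ^ 2 := by
        apply Finset.sum_le_sum
        intro j _
        apply mul_le_mul_of_nonneg_right _ (sq_nonneg _)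
        have h1 := (hA j).lo2 (x j ^ 2) (sq_nonneg _)
        have h2 : 0 ≤ 4 * x j ^ 2 * deriv (deriv (A j)) (x j ^ 2) := by positivity
        unfold bf
        linarith
      linarith
    have hbl : ∀ j, 0 ≤ ∫ x, blI A σ (X j) x * Real.exp (-Ψ x) := by
      intro j
      have hmX : ∫ x, X j x * Real.exp (-Ψ x) = 0 := by
        have h1 := integral_neg_eq_self (fun x => X j x * Real.exp (-Ψ x)) volume
        have h2 : ∫ x, X j (-x) * Real.exp (-Ψ (-x)) = - ∫ x, X j x * Real.exp (-Ψ x) := by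
          rw [← integral_neg]
          apply integral_congr_ae
          filter_upwards with x
          rw [hXo, hΨe]; ring
        linarith
      have h1 := hL n Ψ (X j) (bf A σ) hΨ hb hδ hint hhess (hXc j) (hXs j) hmX
      obtain ⟨-, j1, j2⟩ := iblI j
      have e : ∫ x, blI A σ (X j) x * Real.exp (-Ψ x) =
          (∫ x, (∑ l, pd l (X j) x ^ 2 / bf A σ l (x l)) * Real.exp (-Ψ x)) -
            ∫ x, X j x ^ 2 * Real.exp (-Ψ x) := by
        rw [← integral_sub j1 j2]
        apply integral_congr_ae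
        filter_upwards with x
        simp only [blI]; ring
      rw [e]
      linarith
    have hfinal : 0 ≤ ∫ x, (f x * Real.exp (-Ψ x) + 2 * ((∑ i, X i x * pd i h x) *
        Real.exp (-Ψ x)) + ((∑ i, ∑ j, pd i (X j) x * pd j (X i) x) +
        ∑ i, ∑ j, pd i (pd j Ψ) x * X i x * X j x) * Real.exp (-Ψ x)) := by
      have hlowint : Integrable (fun x => (∑ j, jaI A σ α (X j) j x * Real.exp (-Ψ x)) +
          ∑ k, s k * (blI A σ (X (o k)) x * Real.exp (-Ψ x))) :=
        (integrable_finsetSum _ fun j _ => ijaI j).add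
          (integrable_finsetSum _ fun k _ => (iblI (o k)).1.const_mul _)
      have h0 : 0 ≤ ∫ x, ((∑ j, jaI A σ α (X j) j x * Real.exp (-Ψ x)) +
          ∑ k, s k * (blI A σ (X (o k)) x * Real.exp (-Ψ x))) := by
        rw [integral_add (integrable_finsetSum _ fun j _ => ijaI j)
          (integrable_finsetSum _ fun k _ => (iblI (o k)).1.const_mul _),
          integral_finsetSum _ fun j _ => ijaI j,
          integral_finsetSum _ fun k _ => (iblI (o k)).1.const_mul _]
        apply add_nonneg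
        · exact Finset.sum_nonneg fun j _ => hja j
        · apply Finset.sum_nonneg
          intro k _
          rw [integral_const_mul]
          exact mul_nonneg (hs k) (hbl (o k))
      refine h0.trans (integral_mono hlowint ((ihf.add (iX.const_mul 2)).add iT) ?_)
      intro x
      have h1 := pointwise (o := o) (s := s) (β := β) (α := α) hA hs hψ hp hu hH x
      have hE := (Real.exp_pos (-Ψ x)).le
      have h2 := mul_le_mul_of_nonneg_right h1 hE
      simp only
      rw [← Finset.sum_mul]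
      have e2 : ∑ k, s k * (blI A σ (X (o k)) x * Real.exp (-Ψ x)) =
          (∑ k, s k * blI A σ (X (o k)) x) * Real.exp (-Ψ x) := by
        rw [Finset.sum_mul]
        refine Finset.sum_congr rfl fun k _ => ?_
        ring
      rw [e2]
      calc (∑ j, jaI A σ α (X j) j x) * Real.exp (-Ψ x) +
            (∑ k, s k * blI A σ (X (o k)) x) * Real.exp (-Ψ x)
          = ((∑ j, jaI A σ α (X j) j x) + ∑ k, s k * blI A σ (X (o k)) x) *
              Real.exp (-Ψ x) := by ring
        _ ≤ _ := h2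
        _ = _ := by ring
    have hsplit : ∫ x, (f x * Real.exp (-Ψ x) + 2 * ((∑ i, X i x * pd i h x) *
        Real.exp (-Ψ x)) + ((∑ i, ∑ j, pd i (X j) x * pd j (X i) x) +
        ∑ i, ∑ j, pd i (pd j Ψ) x * X i x * X j x) * Real.exp (-Ψ x)) =
        mf + 2 * (∫ x, (∑ i, X i x * pd i h x) * Real.exp (-Ψ x)) +
        ∫ x, ((∑ i, ∑ j, pd i (X j) x * pd j (X i) x) +
        ∑ i, ∑ j, pd i (pd j Ψ) x * X i x * X j x) * Real.exp (-Ψ x) := by
      have i12 : Integrable (fun x => f x * Real.exp (-Ψ x) + 2 * ((∑ i, X i x * pd i h x) *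
        Real.exp (-Ψ x))) := ihf.add (iX.const_mul 2)
      rw [integral_add i12 iT, integral_add ihf (iX.const_mul 2), integral_const_mul]
    rw [hsplit] at hfinal
    have hibp2 : ∫ x, h' x * L x * Real.exp (-Ψ x) =
        - ∫ x, (∑ i, X i x * pd i h x) * Real.exp (-Ψ x) := by
      rw [hLdef, hibp]
      simp only [hpd']
    have hle : ∫ x, (L x - h' x) ^ 2 * Real.exp (-Ψ x) ≤ ε := hule
    rw [← hvar, hid, hibp2]
    have hboch' : ∫ x, L x ^ 2 * Real.exp (-Ψ x) =
        ∫ x, ((∑ i, ∑ j, pd i (X j) x * pd j (X i) x) +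
        ∑ i, ∑ j, pd i (pd j Ψ) x * X i x * X j x) * Real.exp (-Ψ x) := hboch
    rw [hboch']
    linarith
  have : m0 * (m2 - m1 * c) ≤ m0 * mf := mul_le_mul_of_nonneg_left key hm0pos.le
  have e : m0 * (m2 - m1 * c) = m0 * m2 - m1 ^ 2 := by
    have : m0 * (m1 * c) = m1 * (c * m0) := by ring
    rw [mul_sub, this, hcm]; ring
  rw [e] at this
  exact this

end Pool.Agent.Lib.MP_2d002d_gt.H38
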